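import Pool.Agent.Y779.SM.Obs

set_option autoImplicit false

/-!
# Arcs of the circle: smooth approximation with bounded variation
-/

namespace Pool.Agent.Y779.SM

open Real MeasureTheory Function Filter Topology Pool.Agent.TH705.SM

theorem sT_deriv_nonneg (x : ℝ) : 0 ≤ deriv smoothTransition x :=
  smoothTransition.monotone.deriv_nonneg

theorem sT_hasDeriv (x : ℝ) : HasDerivAt smoothTransition (deriv smoothTransition x) x :=
  ((smoothTransition.contDiff (n := 1)).differentiable one_ne_zero _).hasDerivAt

/-- the smooth approximation -/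
noncomputable def Hk (c κ : ℝ) (k : ℕ) (t : ℝ) : ℝ :=
  smoothTransition (k * (cos (2 * π * (t - c)) - κ))

/-- its derivative -/
noncomputable def Hk' (c κ : ℝ) (k : ℕ) (t : ℝ) : ℝ :=
  deriv smoothTransition (k * (cos (2 * π * (t - c)) - κ)) *
    (k * (-sin (2 * π * (t - c)) * (2 * π)))

theorem Hk_hasDeriv (c κ : ℝ) (k : ℕ) (t : ℝ) : HasDerivAt (Hk c κ k) (Hk' c κ k t) t := by
  have h1 : HasDerivAt (fun t : ℝ => 2 * π * (t - c)) (2 * π) t := by
    simpa using ((hasDerivAt_id t).sub_const c).const_mul (2 * π)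
  have h2 := ((h1.cos).sub_const κ).const_mul (k : ℝ)
  exact (sT_hasDeriv _).comp t h2

theorem Hk'_cont (c κ : ℝ) (k : ℕ) : Continuous (Hk' c κ k) := by
  have h := sT_deriv_cont
  have h1 : Continuous (fun t : ℝ => deriv smoothTransition (k * (cos (2 * π * (t - c)) - κ))) :=
    h.comp (by fun_prop)
  unfold Hk'
  fun_prop

theorem arg_per (c t : ℝ) : 2 * π * (t + 1 - c) = 2 * π * (t - c) + 2 * π := by ring

theorem Hk_per (c κ : ℝ) (k : ℕ) : Periodic (Hk c κ k) 1 := by
  intro t
  unfold Hk
  rw [arg_per, cos_add_two_pi]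

theorem Hk'_per (c κ : ℝ) (k : ℕ) : Periodic (Hk' c κ k) 1 := by
  intro t
  unfold Hk'
  rw [arg_per, cos_add_two_pi, sin_add_two_pi]

theorem Hk_abs (c κ : ℝ) (k : ℕ) (t : ℝ) : |Hk c κ k t| ≤ 1 := by
  unfold Hk
  rw [abs_of_nonneg (smoothTransition.nonneg _)]
  exact smoothTransition.le_one _

theorem Hk_cont (c κ : ℝ) (k : ℕ) : Continuous (Hk c κ k) :=
  continuous_iff_continuousAt.2 fun t => (Hk_hasDeriv c κ k t).continuousAt

/-- the total variation is at most two -/
theorem Hk'_int (c κ : ℝ) (k : ℕ) : ∫ t in (0:ℝ)..1, |Hk' c κ k t| ≤ 2 := by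
  have hc := Hk'_cont c κ k
  have hpi := pi_pos
  have hper : Periodic (fun t => |Hk' c κ k t|) 1 := fun t => by
    simp only [Hk'_per c κ k t]
  have h1 := hper.intervalIntegral_add_eq 0 c
  rw [zero_add] at h1
  rw [h1, ← intervalIntegral.integral_add_adjacent_intervals (b := c + 1 / 2)
    (hc.abs.intervalIntegrable _ _) (hc.abs.intervalIntegrable _ _)]
  have hF : ∀ u v : ℝ, ∫ t in u..v, Hk' c κ k t = Hk c κ k v - Hk c κ k u := fun u v =>
    intervalIntegral.integral_eq_sub_of_hasDerivAt (fun t _ => Hk_hasDeriv c κ k t)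
      (hc.intervalIntegrable _ _)
  have hb : ∀ t, 0 ≤ Hk c κ k t ∧ Hk c κ k t ≤ 1 := fun t =>
    ⟨smoothTransition.nonneg _, smoothTransition.le_one _⟩
  have h2 : ∫ t in c..(c + 1 / 2), |Hk' c κ k t| ≤ 1 := by
    have e : ∫ t in c..(c + 1 / 2), |Hk' c κ k t| = ∫ t in c..(c + 1 / 2), -(Hk' c κ k t) := by
      apply intervalIntegral.integral_congr
      intro t ht
      rw [Set.uIcc_of_le (by linarith)] at ht
      simp only
      rw [abs_of_nonpos]
      unfold Hk'
      apply mul_nonpos_of_nonneg_of_nonpos (sT_deriv_nonneg _)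
      apply mul_nonpos_of_nonneg_of_nonpos (Nat.cast_nonneg k)
      have : 0 ≤ sin (2 * π * (t - c)) := by
        apply sin_nonneg_of_nonneg_of_le_pi
        · have := ht.1
          have : 0 ≤ t - c := by linarith
          positivity
        · have := ht.2
          nlinarith
      nlinarith
    rw [e, intervalIntegral.integral_neg, hF]
    have := hb (c + 1 / 2)
    have := hb c
    linarith
  have h3 : ∫ t in (c + 1 / 2)..(c + 1), |Hk' c κ k t| ≤ 1 := by
    have e : ∫ t in (c + 1 / 2)..(c + 1), |Hk' c κ k t| =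
        ∫ t in (c + 1 / 2)..(c + 1), Hk' c κ k t := by
      apply intervalIntegral.integral_congr
      intro t ht
      rw [Set.uIcc_of_le (by linarith)] at ht
      simp only
      rw [abs_of_nonneg]
      unfold Hk'
      apply mul_nonneg (sT_deriv_nonneg _)
      apply mul_nonneg (Nat.cast_nonneg k)
      have : 0 ≤ sin (2 * π * (t - c) - π) := by
        apply sin_nonneg_of_nonneg_of_le_pi
        · have := ht.1
          nlinarith
        · have := ht.2
          nlinarith
      rw [sin_sub_pi] at this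
      nlinarith
    rw [e, hF]
    have := hb (c + 1 / 2)
    have := hb (c + 1)
    linarith
  linarith

open Classical in
/-- pointwise convergence -/
theorem Hk_lim (c κ t : ℝ) : Tendsto (fun k : ℕ => Hk c κ k t) atTop
    (𝓝 (if κ < cos (2 * π * (t - c)) then 1 else 0)) := by
  split_ifs with h
  · refine tendsto_const_nhds.congr' ?_
    have h0 : 0 < cos (2 * π * (t - c)) - κ := by linarith
    obtain ⟨N, hN⟩ := exists_nat_gt (1 / (cos (2 * π * (t - c)) - κ))
    filter_upwards [eventually_ge_atTop N] with k hk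
    unfold Hk
    rw [smoothTransition.one_of_one_le]
    have h1 : (N : ℝ) ≤ k := by exact_mod_cast hk
    rw [div_lt_iff₀ h0] at hN
    nlinarith
  · refine tendsto_const_nhds.congr' ?_
    filter_upwards with k
    unfold Hk
    rw [smoothTransition.zero_of_nonpos]
    have : (0:ℝ) ≤ k := Nat.cast_nonneg k
    nlinarith

/-- arcs in terms of the cosine -/
theorem ball_iff (c r : ℝ) : ∃ κ : ℝ, ∀ t : ℝ,
    (t : UnitAddCircle) ∈ Metric.ball (c : UnitAddCircle) r ↔ κ < cos (2 * π * (t - c)) := by
  have hpi := pi_pos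
  have key : ∀ t : ℝ, dist (t : UnitAddCircle) (c : UnitAddCircle) = |t - c - round (t - c)| := by
    intro t
    rw [dist_eq_norm, ← AddCircle.coe_sub, UnitAddCircle.norm_eq]
  rcases le_or_gt r 0 with hr | hr
  · refine ⟨2, fun t => ?_⟩
    rw [Metric.mem_ball]
    constructor
    · intro h
      have := dist_nonneg (x := (t : UnitAddCircle)) (y := (c : UnitAddCircle))
      linarith
    · intro h
      have := cos_le_one (2 * π * (t - c))
      linarith
  rcases lt_or_ge (1 / 2) r with hr2 | hr2
  · refine ⟨-2, fun t => ?_⟩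
    rw [Metric.mem_ball, key]
    constructor
    · intro _
      have := neg_one_le_cos (2 * π * (t - c))
      linarith
    · intro _
      have := abs_sub_round (t - c)
      linarith
  · refine ⟨cos (2 * π * r), fun t => ?_⟩
    rw [Metric.mem_ball, key]
    set y : ℝ := |t - c - round (t - c)| with hy
    have hy1 : y ≤ 1 / 2 := abs_sub_round (t - c)
    have hy0 : 0 ≤ y := abs_nonneg _
    have e : cos (2 * π * (t - c)) = cos (2 * π * y) := by
      have h1 : cos (2 * π * (t - c - round (t - c))) = cos (2 * π * (t - c)) := by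
        have : 2 * π * (t - c - round (t - c)) = 2 * π * (t - c) - (round (t - c) : ℤ) * (2 * π) := by
          ring
        rw [this, cos_sub_int_mul_two_pi]
      rw [← h1, ← cos_abs (2 * π * (t - c - round (t - c))), abs_mul,
        abs_of_pos (by positivity : 0 < 2 * π)]
    rw [e]
    have hm := strictAntiOn_cos.lt_iff_gt (a := 2 * π * r) (b := 2 * π * y)
      ⟨by positivity, by nlinarith⟩ ⟨by positivity, by nlinarith⟩
    rw [hm]
    constructor
    · intro h
      nlinarith
    · intro h
      have : 0 < 2 * π := by positivity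
      exact lt_of_mul_lt_mul_left h this.le

end Pool.Agent.Y779.SM
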