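import Pool.Agent.Y779.SM.Lam

set_option autoImplicit false

/-!
# Asymptotic ergodicity and mixing for all Borel sets
-/

namespace Pool.Agent.Y779.SM

open Real MeasureTheory Function Filter Topology Pool.Agent.TH705.SM

theorem dec_v (a : ℝ) {E : Set UnitAddCircle} (mE : MeasurableSet E) (c : UnitAddCircle) (r : ℝ) :
    Dec a (E ×ˢ Metric.closedBall c r) := by
  intro l hl hla n hn
  rw [sq]
  exact vdec hl hla hn mE mE c r c r

theorem dec_h (a : ℝ) {E : Set UnitAddCircle} (mE : MeasurableSet E) (c : UnitAddCircle) (r : ℝ) :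
    Dec a (Metric.closedBall c r ×ˢ E) := by
  intro l hl hla n hn
  rw [sq]
  exact hdec hl hla hn mE mE c r c r

/-- eigenfunctions, for all Borel sets -/
theorem asym_eig {B : Set T2} (mB : MeasurableSet B) {ε : ℝ} (hε : 0 < ε) :
    ∃ a0 : ℝ, ∀ a : ℝ, a0 ≤ |a| → ∀ ζ : ℂ, ‖ζ‖ = 1 → ∀ φ : T2 → ℂ,
      AEStronglyMeasurable φ volume → (∀ᵐ p : T2, ‖φ p‖ ≤ 1) →
      (∀ᵐ p : T2, φ (S a p) = ζ * φ p) →
      ‖(∫ p in B, φ p) - ((volume : Measure T2).real B : ℂ) * ∫ p, φ p‖ ≤ ε := by
  let K := {x : ℝ × ℂ × (T2 → ℂ) // 1 ≤ |x.1| ∧ ‖x.2.1‖ = 1 ∧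
    AEStronglyMeasurable x.2.2 (volume : Measure T2) ∧ (∀ᵐ p : T2, ‖x.2.2 p‖ ≤ 1) ∧
      ∀ᵐ p : T2, x.2.2 (S x.1 p) = x.2.1 * x.2.2 p}
  let F : Filter K := comap (fun k => |k.1.1|) atTop
  let Φ : K → Set T2 → ℂ := fun k B =>
    (∫ p in B, k.1.2.2 p) - ((volume : Measure T2).real B : ℂ) * ∫ p, k.1.2.2 p
  have hLp : ∀ k : K, MemLp k.1.2.2 2 (volume : Measure T2) := fun k =>
    MemLp.of_bound k.2.2.2.1 1 k.2.2.2.2.1
  have hI : ∀ k : K, Integrable k.1.2.2 (volume : Measure T2) := fun k =>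
    (hLp k).integrable (by norm_num)
  have hn1 : ∀ k : K, ‖∫ p, k.1.2.2 p‖ ≤ 1 := by
    intro k
    have := norm_integral_le_of_norm_le_const (μ := (volume : Measure T2)) k.2.2.2.2.1
    simpa using this
  have key := lam (F := F) (Φ := Φ) (by
    intro k A B mA mB hd
    show (∫ p in A ∪ B, k.1.2.2 p) - ((volume : Measure T2).real (A ∪ B) : ℂ) * ∫ p, k.1.2.2 p =
      ((∫ p in A, k.1.2.2 p) - ((volume : Measure T2).real A : ℂ) * ∫ p, k.1.2.2 p) +
      ((∫ p in B, k.1.2.2 p) - ((volume : Measure T2).real B : ℂ) * ∫ p, k.1.2.2 p)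
    rw [setIntegral_union hd mB (hI k).integrableOn (hI k).integrableOn,
      measureReal_union hd mB]
    push_cast
    ring) (by
    intro k B mB
    show ‖(∫ p in B, k.1.2.2 p) - ((volume : Measure T2).real B : ℂ) * ∫ p, k.1.2.2 p‖ ≤ _
    have h1 : ‖∫ p in B, k.1.2.2 p‖ ≤ 1 * (volume : Measure T2).real B :=
      norm_setIntegral_le_of_norm_le_const_ae (measure_lt_top _ _)
        (ae_restrict_of_ae k.2.2.2.2.1)
    have h2 : ‖((volume : Measure T2).real B : ℂ) * ∫ p, k.1.2.2 p‖ ≤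
        (volume : Measure T2).real B * 1 := by
      rw [norm_mul, Complex.norm_real, norm_eq_abs, abs_of_nonneg measureReal_nonneg]
      exact mul_le_mul_of_nonneg_left (hn1 k) measureReal_nonneg
    have h3 := norm_sub_le (∫ p in B, k.1.2.2 p)
      (((volume : Measure T2).real B : ℂ) * ∫ p, k.1.2.2 p)
    linarith) (by
    intro k
    show (∫ p in Set.univ, k.1.2.2 p) - ((volume : Measure T2).real Set.univ : ℂ) *
      ∫ p, k.1.2.2 p = 0
    rw [setIntegral_univ, probReal_univ]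
    simp) (by
    intro E mE c r
    have h1 : Tendsto (fun x : ℝ => √(C2 * (1 / x) ^ (1 / 3 : ℝ))) atTop (𝓝 0) := by
      have h2 : Tendsto (fun x : ℝ => (1 / x) ^ (1 / 3 : ℝ)) atTop (𝓝 0) := by
        have h3 := tendsto_rpow_neg_atTop (y := 1 / 3) (by norm_num)
        refine h3.congr' ?_
        filter_upwards [eventually_ge_atTop 0] with x hx
        rw [rpow_neg hx, one_div x, inv_rpow hx]
      have h4 := (h2.const_mul C2).sqrt
      rwa [mul_zero, sqrt_zero] at h4
    refine squeeze_zero_norm (a := fun k : K => √(C2 * (1 / |k.1.1|) ^ (1 / 3 : ℝ))) ?_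
      (h1.comp tendsto_comap)
    intro k
    have mR : MeasurableSet (E ×ˢ Metric.closedBall c r : Set T2) :=
      mE.prod Metric.isClosed_closedBall.measurableSet
    have h5 := eig2 k.2.1 mR (dec_v k.1.1 mE c r) k.2.2.1 (hLp k) k.2.2.2.2.2
    refine h5.trans ?_
    have h6 : ∫ p, ‖k.1.2.2 p‖ ^ 2 ≤ 1 := by
      have h7 : ∀ᵐ p : T2, ‖(‖k.1.2.2 p‖ ^ 2 : ℝ)‖ ≤ 1 := by
        filter_upwards [k.2.2.2.2.1] with p hp
        rw [norm_pow, norm_norm]
        exact pow_le_one₀ (norm_nonneg _) hp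
      have h8 := norm_integral_le_of_norm_le_const (μ := (volume : Measure T2)) h7
      have h9 := le_norm_self (∫ p, ‖k.1.2.2 p‖ ^ 2)
      have h10 : (1:ℝ) * (volume : Measure T2).real Set.univ = 1 := by
        rw [probReal_univ, mul_one]
      linarith
    have h7 : √(∫ p, ‖k.1.2.2 p‖ ^ 2) ≤ 1 := by
      rw [sqrt_le_one]
      exact h6
    have hk0 : 0 < |k.1.1| := by linarith [k.2.1]
    have h8 : ww k.1.1 (E ×ˢ Metric.closedBall c r) ≤ (1 / |k.1.1|) ^ (1 / 3 : ℝ) := by
      unfold ww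
      apply rpow_le_rpow (div_nonneg measureReal_nonneg hk0.le) _ (by norm_num)
      exact div_le_div_of_nonneg_right (v_mem _).2 hk0.le
    calc √(C2 * ww k.1.1 (E ×ˢ Metric.closedBall c r)) * √(∫ p, ‖k.1.2.2 p‖ ^ 2) ≤
        √(C2 * ww k.1.1 (E ×ˢ Metric.closedBall c r)) * 1 :=
          mul_le_mul_of_nonneg_left h7 (sqrt_nonneg _)
      _ ≤ _ := by
        rw [mul_one]
        exact sqrt_le_sqrt (mul_le_mul_of_nonneg_left h8 C2_pos.le)) mB
  rw [Metric.tendsto_nhds] at key
  have h1 := key ε hε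
  rw [eventually_comap, eventually_atTop] at h1
  obtain ⟨b, hb⟩ := h1
  refine ⟨max b 1, fun a ha ζ hζ φ hφm hφb he => ?_⟩
  have h2 := hb |a| (le_trans (le_max_left _ _) ha)
    ⟨(a, ζ, φ), le_trans (le_max_right _ _) ha, hζ, hφm, hφb, he⟩ rfl
  rw [dist_zero_right] at h2
  exact h2.le

/-- invariant sets and frequencies, for all Borel sets -/
theorem asym_inv {B : Set T2} (mB : MeasurableSet B) {ε : ℝ} (hε : 0 < ε) :
    ∃ a0 : ℝ, ∀ a : ℝ, a0 ≤ |a| → ∀ A : Set T2, MeasurableSet A → S a ⁻¹' A =ᵐ[volume] A →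
      |(volume : Measure T2).real (A ∩ B) - (volume : Measure T2).real A *
        (volume : Measure T2).real B| ≤ ε := by
  obtain ⟨a0, h⟩ := asym_eig mB hε
  refine ⟨a0, fun a ha A mA hA => ?_⟩
  have he : ∀ᵐ p : T2, ((rind A (S a p) : ℝ) : ℂ) = 1 * ((rind A p : ℝ) : ℂ) := by
    have h := indicator_ae_eq_of_ae_eq_set (f := fun _ : T2 => (1:ℝ)) hA
    filter_upwards [h] with p hp
    rw [one_mul]
    congr 1
  have h1 := h a ha 1 (by simp) (fun p => ((rind A p : ℝ) : ℂ))
    (Complex.measurable_ofReal.comp (rind_meas mA)).aestronglyMeasurable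
    (Filter.Eventually.of_forall fun p => by
      rw [Complex.norm_real]
      exact rind_abs A p) he
  have h2 : ∫ p in B, ((rind A p : ℝ) : ℂ) = (((volume : Measure T2).real (A ∩ B) : ℝ) : ℂ) := by
    rw [integral_complex_ofReal]
    congr 1
    unfold rind
    rw [setIntegral_indicator mA, setIntegral_const, smul_eq_mul, mul_one, Set.inter_comm]
  have h3 : ∫ p, ((rind A p : ℝ) : ℂ) = (((volume : Measure T2).real A : ℝ) : ℂ) := by
    rw [integral_complex_ofReal, int_rind mA]
  rw [h2, h3, ← Complex.ofReal_mul, ← Complex.ofReal_sub, Complex.norm_real, norm_eq_abs] at h1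
  rw [mul_comm ((volume : Measure T2).real A)]
  exact h1

open Classical in
theorem asym_freq {B : Set T2} (mB : MeasurableSet B) {ε : ℝ} (hε : 0 < ε) :
    ∃ a0 : ℝ, ∀ a : ℝ, a0 ≤ |a| → ∃ f : T2 → ℝ, Measurable f ∧ (∀ p, f (S a p) = f p) ∧
      (∀ᵐ p : T2, Tendsto (fun N : ℕ =>
        (((Finset.range N).filter fun k => (S a)^[k] p ∈ B).card : ℝ) / N) atTop (𝓝 (f p))) ∧
      Integrable (fun p => (f p - (volume : Measure T2).real B) ^ 2) ∧
      ∫ p, (f p - (volume : Measure T2).real B) ^ 2 ≤ ε := by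
  obtain ⟨a0, h⟩ := asym_eig mB hε
  refine ⟨a0, fun a ha => ?_⟩
  obtain ⟨f, hfm, hinv, hfr, ig2, hgb, e2⟩ := freq0 a mB
  refine ⟨f, hfm, hinv, hfr, ig2, ?_⟩
  have hgm : Measurable (fun p => f p - (volume : Measure T2).real B) := hfm.sub measurable_const
  have hφm : AEStronglyMeasurable (fun p : T2 => ((f p - (volume : Measure T2).real B : ℝ) : ℂ))
    volume := (Complex.measurable_ofReal.comp hgm).aestronglyMeasurable
  have hφb : ∀ᵐ p : T2, ‖((f p - (volume : Measure T2).real B : ℝ) : ℂ)‖ ≤ 1 := by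
    filter_upwards [hgb] with p hp
    rw [Complex.norm_real]
    exact hp
  have h1 := h a ha 1 (by simp) (fun p => ((f p - (volume : Measure T2).real B : ℝ) : ℂ)) hφm hφb
    (Filter.Eventually.of_forall fun p => by rw [hinv, one_mul])
  have hi : Integrable (fun p : T2 => ((f p - (volume : Measure T2).real B : ℝ) : ℂ)) :=
    (MemLp.of_bound (p := 2) hφm 1 hφb).integrable (by norm_num)
  rw [← cin_int mB hi, e2, Complex.norm_real, norm_eq_abs] at h1
  exact (le_abs_self _).trans h1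

/-- mixing, for all Borel sets -/
theorem asym_mix {B B' : Set T2} (mB : MeasurableSet B) (mB' : MeasurableSet B') {ε : ℝ}
    (hε : 0 < ε) :
    ∃ δ : ℝ, 0 < δ ∧ ∀ a : ℝ, ∀ n : ℕ, 3 ≤ n → (n : ℝ) ≤ δ * |a| →
      |(volume : Measure T2).real (B ∩ (S a)^[n] ⁻¹' B') - (volume : Measure T2).real B *
        (volume : Measure T2).real B'| ≤ ε := by
  let K := {x : ℝ × ℕ // 1 ≤ |x.1| ∧ 3 ≤ x.2}
  let F : Filter K := comap (fun k => |k.1.1| / k.1.2) atTop
  have hpre : ∀ (k : K) {R : Set T2}, MeasurableSet R →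
      (volume : Measure T2).real ((S k.1.1)^[k.1.2] ⁻¹' R) = (volume : Measure T2).real R := by
    intro k R mR
    unfold Measure.real
    rw [(iter_mp k.1.1 k.1.2).measure_preimage mR.nullMeasurableSet]
  have hmono : ∀ {R R' : Set T2}, R ⊆ R' →
      (volume : Measure T2).real R ≤ (volume : Measure T2).real R' := fun h =>
    measureReal_mono h (measure_ne_top _ _)
  -- first for rectangles
  have h0 : ∀ (E E2 : Set UnitAddCircle), MeasurableSet E → MeasurableSet E2 →
      ∀ (c : UnitAddCircle) (r : ℝ) (c2 : UnitAddCircle) (r2 : ℝ),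
      Tendsto (fun k : K => (volume : Measure T2).real ((E ×ˢ Metric.closedBall c r) ∩
        (S k.1.1)^[k.1.2] ⁻¹' (E2 ×ˢ Metric.closedBall c2 r2)) -
        (volume : Measure T2).real (E ×ˢ Metric.closedBall c r) *
          (volume : Measure T2).real (E2 ×ˢ Metric.closedBall c2 r2)) F (𝓝 0) := by
    intro E E2 mE mE2 c r c2 r2
    have h1 : Tendsto (fun x : ℝ => C2 * √(1 / x)) atTop (𝓝 0) := by
      have h2 : Tendsto (fun x : ℝ => 1 / x) atTop (𝓝 0) := by
        simpa using tendsto_inv_atTop_zero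
      have h4 := h2.sqrt.const_mul C2
      rwa [sqrt_zero, mul_zero] at h4
    refine squeeze_zero_norm (a := fun k : K => C2 * √(1 / (|k.1.1| / k.1.2))) ?_
      (h1.comp tendsto_comap)
    intro k
    have h2 := fin_time (R := E ×ˢ Metric.closedBall c r) (R' := E2 ×ˢ Metric.closedBall c2 r2)
      k.2.1 (fun l hl hla n hn => vdec hl hla hn mE2 mE c2 r2 c r) k.2.2
    rw [norm_eq_abs, one_div_div]
    exact h2
  -- the first set
  have hs1 : ∀ (E2 : Set UnitAddCircle), MeasurableSet E2 → ∀ (c2 : UnitAddCircle) (r2 : ℝ),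
      Tendsto (fun k : K => (volume : Measure T2).real (B ∩
        (S k.1.1)^[k.1.2] ⁻¹' (E2 ×ˢ Metric.closedBall c2 r2)) -
        (volume : Measure T2).real B *
          (volume : Measure T2).real (E2 ×ˢ Metric.closedBall c2 r2)) F (𝓝 0) := by
    intro E2 mE2 c2 r2
    have mR2 : MeasurableSet (E2 ×ˢ Metric.closedBall c2 r2 : Set T2) :=
      mE2.prod Metric.isClosed_closedBall.measurableSet
    refine lam (F := F) (Φ := fun (k : K) (B : Set T2) => (volume : Measure T2).real (B ∩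
        (S k.1.1)^[k.1.2] ⁻¹' (E2 ×ˢ Metric.closedBall c2 r2)) -
        (volume : Measure T2).real B *
          (volume : Measure T2).real (E2 ×ˢ Metric.closedBall c2 r2)) ?_ ?_ ?_ ?_ mB
    · intro k A B mA mB hd
      rw [Set.union_inter_distrib_right, measureReal_union (hd.mono Set.inter_subset_left
        Set.inter_subset_left) (mB.inter ((it_meas _ _) mR2)), measureReal_union hd mB]
      ring
    · intro k B mB
      have h1 := hmono (Set.inter_subset_left (s := B)
        (t := (S k.1.1)^[k.1.2] ⁻¹' (E2 ×ˢ Metric.closedBall c2 r2)))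
      have h2 := v_mem (E2 ×ˢ Metric.closedBall c2 r2)
      have h3 := v_mem B
      have h4 := v_mem (B ∩ (S k.1.1)^[k.1.2] ⁻¹' (E2 ×ˢ Metric.closedBall c2 r2))
      rw [norm_eq_abs, abs_le]
      constructor <;> nlinarith [mul_nonneg h3.1 h2.1, mul_le_mul_of_nonneg_left h2.2 h3.1]
    · intro k
      rw [Set.univ_inter, probReal_univ, hpre k mR2]
      ring
    · intro E mE c r
      exact h0 E E2 mE mE2 c r c2 r2
  have hs2 : Tendsto (fun k : K => (volume : Measure T2).real (B ∩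
        (S k.1.1)^[k.1.2] ⁻¹' B') - (volume : Measure T2).real B *
          (volume : Measure T2).real B') F (𝓝 0) := by
    refine lam (F := F) (Φ := fun (k : K) (B' : Set T2) => (volume : Measure T2).real (B ∩
        (S k.1.1)^[k.1.2] ⁻¹' B') - (volume : Measure T2).real B *
          (volume : Measure T2).real B') ?_ ?_ ?_ ?_ mB'
    · intro k A A' mA mA' hd
      rw [Set.preimage_union, Set.inter_union_distrib_left, measureReal_union
        ((hd.preimage _).mono Set.inter_subset_right Set.inter_subset_right)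
        (mB.inter ((it_meas _ _) mA')), measureReal_union hd mA']
      ring
    · intro k A mA
      have h1 := hmono (Set.inter_subset_right (s := B) (t := (S k.1.1)^[k.1.2] ⁻¹' A))
      rw [hpre k mA] at h1
      have h2 := v_mem A
      have h3 := v_mem B
      have h4 := v_mem (B ∩ (S k.1.1)^[k.1.2] ⁻¹' A)
      rw [norm_eq_abs, abs_le]
      constructor <;> nlinarith [mul_nonneg h3.1 h2.1, mul_le_mul_of_nonneg_right h3.2 h2.1]
    · intro k
      rw [Set.preimage_univ, Set.inter_univ, probReal_univ]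
      ring
    · intro E mE c r
      exact hs1 E mE c r
  rw [Metric.tendsto_nhds] at hs2
  have h1 := hs2 ε hε
  rw [eventually_comap, eventually_atTop] at h1
  obtain ⟨b, hb⟩ := h1
  refine ⟨1 / max b 1, by positivity, fun a n hn hna => ?_⟩
  have hn0 : (3:ℝ) ≤ n := by exact_mod_cast hn
  have hm : 0 < max b 1 := lt_of_lt_of_le one_pos (le_max_right _ _)
  have h2 : max b 1 * n ≤ |a| := by
    rw [one_div, inv_mul_eq_div, le_div_iff₀ hm] at hna
    linarith
  have h3 : max b 1 ≤ |a| / n := by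
    rw [le_div_iff₀ (by linarith)]
    exact h2
  have h4 : 1 ≤ |a| := by
    have := le_max_right b 1
    nlinarith
  have h5 := hb (|a| / n) (le_trans (le_max_left _ _) h3) ⟨(a, n), h4, hn⟩ rfl
  rw [dist_zero_right] at h5
  exact h5.le

end Pool.Agent.Y779.SM
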