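import Mathlib
import Pool.Agent.H165R3.BPE

set_option autoImplicit false

/-!
# Short time decay of correlations and eigenfunctions
-/

namespace Pool.Agent.Y779.SM

open Real MeasureTheory Function Filter Topology Finset

theorem count_near (N j : ℕ) {v ε : ℝ} (hv : 0 ≤ v) (hε : 0 ≤ ε) :
    ∑ k ∈ range N, (if k < j + 3 ∧ j < k + 3 then v else ε) ≤ 5 * v + N * ε := by
  have h1 : ∀ k ∈ range N, (if k < j + 3 ∧ j < k + 3 then v else ε) ≤
      (if k < j + 3 ∧ j < k + 3 then (1:ℝ) else 0) * v + ε := by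
    intro k _
    split_ifs <;> linarith
  refine (sum_le_sum h1).trans ?_
  rw [sum_add_distrib, sum_const, card_range, nsmul_eq_mul, ← sum_mul, sum_boole]
  have h2 : ((range N).filter fun k => k < j + 3 ∧ j < k + 3).card ≤ 5 := by
    have : ((range N).filter fun k => k < j + 3 ∧ j < k + 3) ⊆ Finset.Icc (j - 2) (j + 2) := by
      intro k hk
      rw [mem_filter] at hk
      rw [Finset.mem_Icc]
      omega
    refine (card_le_card this).trans ?_
    rw [Nat.card_Icc]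
    omega
  have h3 : (((range N).filter fun k => k < j + 3 ∧ j < k + 3).card : ℝ) ≤ 5 := by
    exact_mod_cast h2
  have := mul_le_mul_of_nonneg_right h3 hv
  linarith

variable {B : Type*} [MeasurableSpace B] {μ : Measure B} [IsProbabilityMeasure μ]

omit [IsProbabilityMeasure μ] in
theorem corr_sym {T : B → B} (hT : MeasurePreserving T μ μ) {F : B → ℝ} (mF : Measurable F)
    (j n : ℕ) : ∫ x, F (T^[j + n] x) * F (T^[j] x) ∂μ = ∫ x, F (T^[n] x) * F x ∂μ := by
  have mT := (hT.iterate j).measurable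
  have mG : Measurable (fun x => F (T^[n] x) * F x) :=
    (mF.comp (hT.iterate n).measurable).mul mF
  have h := integral_map (μ := μ) mT.aemeasurable (f := fun x => F (T^[n] x) * F x)
    mG.aestronglyMeasurable
  rw [(hT.iterate j).map_eq] at h
  rw [h]
  congr 1
  ext x
  rw [← iterate_add_apply, Nat.add_comm n j]

theorem pair_le {T : B → B} (hT : MeasurePreserving T μ μ) {F : B → ℝ} (mF : Measurable F)
    (hF : ∀ x, |F x| ≤ 1) {v ε : ℝ} (hv : ∫ x, F x ^ 2 ∂μ ≤ v) {N : ℕ}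
    (hc : ∀ n, 3 ≤ n → n ≤ N → |∫ x, F (T^[n] x) * F x ∂μ| ≤ ε) {j k : ℕ} (hj : j < N)
    (hk : k < N) :
    |∫ x, F (T^[j] x) * F (T^[k] x) ∂μ| ≤ if k < j + 3 ∧ j < k + 3 then v else ε := by
  split_ifs with h
  · have hsq : Integrable (fun x => F x ^ 2) μ := by
      refine Integrable.mono' (integrable_const 1) (mF.pow_const 2).aestronglyMeasurable
        (Filter.Eventually.of_forall fun x => ?_)
      rw [norm_eq_abs, abs_pow]
      exact pow_le_one₀ (abs_nonneg _) (hF x)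
    have hsj : ∀ i : ℕ, Integrable (fun x => F (T^[i] x) ^ 2) μ := fun i =>
      (hT.iterate i).integrable_comp_of_integrable hsq
    have hei : ∀ i : ℕ, ∫ x, F (T^[i] x) ^ 2 ∂μ = ∫ x, F x ^ 2 ∂μ := by
      intro i
      have h := integral_map (μ := μ) (hT.iterate i).measurable.aemeasurable
        (f := fun x => F x ^ 2) (mF.pow_const 2).aestronglyMeasurable
      rw [(hT.iterate i).map_eq] at h
      exact h.symm
    have h1 := norm_integral_le_of_norm_le (μ := μ) (((hsj j).add (hsj k)).div_const 2)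
      (f := fun x => F (T^[j] x) * F (T^[k] x)) (Filter.Eventually.of_forall fun x => by
        rw [norm_eq_abs, Pi.add_apply, abs_le]
        constructor <;> nlinarith [sq_nonneg (F (T^[j] x) + F (T^[k] x)),
          sq_nonneg (F (T^[j] x) - F (T^[k] x))])
    rw [integral_div, integral_add' (hsj j) (hsj k), hei, hei, norm_eq_abs] at h1
    linarith
  · rcases Nat.lt_or_ge j k with h1 | h1
    · obtain ⟨n, rfl⟩ := Nat.exists_eq_add_of_lt h1
      have h2 := corr_sym hT mF j (n + 1)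
      have h3 : ∫ x, F (T^[j] x) * F (T^[j + n + 1] x) ∂μ =
          ∫ x, F (T^[j + (n + 1)] x) * F (T^[j] x) ∂μ := by
        congr 1
        ext x
        rw [mul_comm, Nat.add_assoc]
      rw [h3, h2]
      exact hc _ (by omega) (by omega)
    · obtain ⟨n, rfl⟩ := Nat.exists_eq_add_of_le h1
      rw [corr_sym hT mF k n]
      exact hc _ (by omega) (by omega)

/-- the twisted average -/
noncomputable def tw (T : B → B) (F : B → ℝ) (ζ : ℂ) (N : ℕ) (x : B) : ℂ :=
  ∑ k ∈ range N, ζ ^ k * (F (T^[k] x) : ℂ)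

omit [IsProbabilityMeasure μ] in
theorem tw_meas {T : B → B} (hT : MeasurePreserving T μ μ) {F : B → ℝ} (mF : Measurable F)
    (ζ : ℂ) (N : ℕ) : Measurable (tw T F ζ N) := by
  unfold tw
  refine Finset.measurable_sum _ fun k _ => ?_
  exact measurable_const.mul (Complex.measurable_ofReal.comp (mF.comp (hT.iterate k).measurable))

omit [MeasurableSpace B] in
theorem tw_norm {T : B → B} {F : B → ℝ} (hF : ∀ x, |F x| ≤ 1) {ζ : ℂ} (hζ : ‖ζ‖ = 1) (N : ℕ)
    (x : B) : ‖tw T F ζ N x‖ ≤ N := by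
  unfold tw
  refine (norm_sum_le _ _).trans ?_
  have : ∀ k ∈ range N, ‖ζ ^ k * (F (T^[k] x) : ℂ)‖ ≤ 1 := by
    intro k _
    rw [norm_mul, norm_pow, hζ, one_pow, one_mul, Complex.norm_real, norm_eq_abs]
    exact hF _
  refine (sum_le_sum this).trans ?_
  simp

theorem tw_sq {T : B → B} (hT : MeasurePreserving T μ μ) {F : B → ℝ} (mF : Measurable F)
    (hF : ∀ x, |F x| ≤ 1) {v ε : ℝ} (hv : ∫ x, F x ^ 2 ∂μ ≤ v) (hε : 0 ≤ ε) {N : ℕ}
    (hc : ∀ n, 3 ≤ n → n ≤ N → |∫ x, F (T^[n] x) * F x ∂μ| ≤ ε) {ζ : ℂ} (hζ : ‖ζ‖ = 1) :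
    ∫ x, ‖tw T F ζ N x‖ ^ 2 ∂μ ≤ N * (5 * v + N * ε) := by
  have hv0 : 0 ≤ v := le_trans (integral_nonneg fun x => sq_nonneg (F x)) hv
  have e1 : ∀ x, ((‖tw T F ζ N x‖ ^ 2 : ℝ) : ℂ) = ∑ j ∈ range N, ∑ k ∈ range N,
      (ζ ^ j * (starRingEnd ℂ) ζ ^ k) * ((F (T^[j] x) * F (T^[k] x) : ℝ) : ℂ) := by
    intro x
    rw [← Complex.normSq_eq_norm_sq, ← Complex.mul_conj]
    unfold tw
    rw [map_sum, sum_mul_sum]
    refine sum_congr rfl fun j _ => sum_congr rfl fun k _ => ?_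
    rw [map_mul, map_pow, Complex.conj_ofReal]
    push_cast
    ring
  have hi : ∀ j k : ℕ, Integrable (fun x => ((F (T^[j] x) * F (T^[k] x) : ℝ) : ℂ)) μ := by
    intro j k
    refine Integrable.mono' (integrable_const 1) (Complex.measurable_ofReal.comp
      ((mF.comp (hT.iterate j).measurable).mul
        (mF.comp (hT.iterate k).measurable))).aestronglyMeasurable
      (Filter.Eventually.of_forall fun x => ?_)
    rw [Complex.norm_real, norm_eq_abs, abs_mul]
    exact mul_le_one₀ (hF _) (abs_nonneg _) (hF _)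
  have e2 : ((∫ x, ‖tw T F ζ N x‖ ^ 2 ∂μ : ℝ) : ℂ) = ∑ j ∈ range N, ∑ k ∈ range N,
      (ζ ^ j * (starRingEnd ℂ) ζ ^ k) * ((∫ x, F (T^[j] x) * F (T^[k] x) ∂μ : ℝ) : ℂ) := by
    rw [← integral_complex_ofReal]
    simp only [e1]
    rw [integral_finsetSum]
    · refine sum_congr rfl fun j _ => ?_
      rw [integral_finsetSum]
      · refine sum_congr rfl fun k _ => ?_
        rw [integral_const_mul, integral_complex_ofReal]
      · intro k _
        exact (hi j k).const_mul _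
    · intro j _
      exact integrable_finsetSum _ fun k _ => (hi j k).const_mul _
  have h0 : 0 ≤ ∫ x, ‖tw T F ζ N x‖ ^ 2 ∂μ := integral_nonneg fun x => by positivity
  have e3 : ∫ x, ‖tw T F ζ N x‖ ^ 2 ∂μ = ‖((∫ x, ‖tw T F ζ N x‖ ^ 2 ∂μ : ℝ) : ℂ)‖ := by
    rw [Complex.norm_real, norm_eq_abs, abs_of_nonneg h0]
  rw [e3, e2]
  refine (norm_sum_le _ _).trans ?_
  have e4 : ∀ j ∈ range N, ‖∑ k ∈ range N, (ζ ^ j * (starRingEnd ℂ) ζ ^ k) *
      ((∫ x, F (T^[j] x) * F (T^[k] x) ∂μ : ℝ) : ℂ)‖ ≤ 5 * v + N * ε := by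
    intro j hj
    refine (norm_sum_le _ _).trans ?_
    refine le_trans (sum_le_sum fun k hk => ?_) (count_near N j hv0 hε)
    rw [norm_mul, norm_mul, norm_pow, norm_pow, RCLike.norm_conj, hζ, one_pow, one_pow, one_mul,
      one_mul, Complex.norm_real, norm_eq_abs]
    exact pair_le hT mF hF hv hc (mem_range.1 hj) (mem_range.1 hk)
  refine (sum_le_sum e4).trans ?_
  rw [sum_const, card_range, nsmul_eq_mul]

/-- the eigenfunctions are almost orthogonal to `F` -/
theorem eigen {T : B → B} (hT : MeasurePreserving T μ μ) {F : B → ℝ} (mF : Measurable F)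
    (hF : ∀ x, |F x| ≤ 1) {v ε : ℝ} (hv : ∫ x, F x ^ 2 ∂μ ≤ v) (hε : 0 ≤ ε) {N : ℕ} (hN : 1 ≤ N)
    (hc : ∀ n, 3 ≤ n → n ≤ N → |∫ x, F (T^[n] x) * F x ∂μ| ≤ ε) {ζ : ℂ} (hζ : ‖ζ‖ = 1)
    {φ : B → ℂ} (hφ : MemLp φ 2 μ) (he : ∀ᵐ x ∂μ, φ (T x) = ζ * φ x) :
    ‖∫ x, (F x : ℂ) * φ x ∂μ‖ ≤ √(5 * v / N + ε) * √(∫ x, ‖φ x‖ ^ 2 ∂μ) := by
  have hN0 : (0:ℝ) < N := by exact_mod_cast hN
  have hφ1 : Integrable φ μ := hφ.integrable (by norm_num)
  have hek : ∀ k : ℕ, ∀ᵐ x ∂μ, φ (T^[k] x) = ζ ^ k * φ x := by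
    intro k
    induction k with
    | zero => exact Filter.Eventually.of_forall fun x => by simp
    | succ k ih =>
      have h1 := (hT.iterate k).quasiMeasurePreserving.ae he
      filter_upwards [ih, h1] with x hx hx1
      rw [iterate_succ_apply', hx1, hx, pow_succ]
      ring
  have hterm : ∀ k : ℕ, ∫ x, (ζ ^ k * (F (T^[k] x) : ℂ)) * φ x ∂μ = ∫ x, (F x : ℂ) * φ x ∂μ := by
    intro k
    have hsm : AEStronglyMeasurable (fun x => (F x : ℂ) * φ x) μ :=
      (Complex.measurable_ofReal.comp mF).aestronglyMeasurable.mul hφ.1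
    have h := integral_map (μ := μ) (hT.iterate k).measurable.aemeasurable
      (f := fun x => (F x : ℂ) * φ x) (by rw [(hT.iterate k).map_eq]; exact hsm)
    rw [(hT.iterate k).map_eq] at h
    rw [h]
    refine integral_congr_ae ?_
    filter_upwards [hek k] with x hx
    rw [hx]
    ring
  have hFi : ∀ k : ℕ, Integrable (fun x => (ζ ^ k * (F (T^[k] x) : ℂ)) * φ x) μ := by
    intro k
    refine hφ1.bdd_mul (c := 1) ?_ (Filter.Eventually.of_forall fun x => ?_)
    · exact (measurable_const.mul (Complex.measurable_ofReal.comp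
        (mF.comp (hT.iterate k).measurable))).aestronglyMeasurable
    · rw [norm_mul, norm_pow, hζ, one_pow, one_mul, Complex.norm_real, norm_eq_abs]
      exact hF _
  have hsum : ∫ x, tw T F ζ N x * φ x ∂μ = N * ∫ x, (F x : ℂ) * φ x ∂μ := by
    unfold tw
    simp only [sum_mul]
    rw [integral_finsetSum _ fun k _ => hFi k]
    simp only [hterm]
    rw [sum_const, card_range, nsmul_eq_mul]
  have hG : MemLp (tw T F ζ N) 2 μ := by
    refine MemLp.of_bound (tw_meas hT mF ζ N).aestronglyMeasurable N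
      (Filter.Eventually.of_forall fun x => tw_norm hF hζ N x)
  have hcs : ∫ x, ‖tw T F ζ N x‖ * ‖φ x‖ ∂μ ≤ √(∫ x, ‖tw T F ζ N x‖ ^ 2 ∂μ) *
      √(∫ x, ‖φ x‖ ^ 2 ∂μ) := by
    have h := integral_mul_norm_le_Lp_mul_Lq (μ := μ) (f := tw T F ζ N) (g := φ) (p := 2) (q := 2)
      Real.HolderConjugate.two_two (by simpa using hG) (by simpa using hφ)
    rw [sqrt_eq_rpow, sqrt_eq_rpow]
    simpa using h
  have h1 : (N : ℝ) * ‖∫ x, (F x : ℂ) * φ x ∂μ‖ ≤ √(∫ x, ‖tw T F ζ N x‖ ^ 2 ∂μ) *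
      √(∫ x, ‖φ x‖ ^ 2 ∂μ) := by
    have h2 : (N : ℝ) * ‖∫ x, (F x : ℂ) * φ x ∂μ‖ = ‖∫ x, tw T F ζ N x * φ x ∂μ‖ := by
      rw [hsum, norm_mul]
      simp
    rw [h2]
    refine (norm_integral_le_integral_norm _).trans ?_
    simp only [norm_mul]
    exact hcs
  have h3 := tw_sq hT mF hF hv hε hc hζ
  have h4 : √(∫ x, ‖tw T F ζ N x‖ ^ 2 ∂μ) ≤ N * √(5 * v / N + ε) := by
    have : (N:ℝ) * √(5 * v / N + ε) = √(N * (5 * v + N * ε)) := by
      rw [← sqrt_sq hN0.le, ← sqrt_mul (by positivity), sqrt_sq hN0.le]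
      congr 1
      field_simp
    rw [this]
    exact sqrt_le_sqrt h3
  have h5 := h1.trans (mul_le_mul_of_nonneg_right h4 (sqrt_nonneg _))
  rw [mul_assoc] at h5
  exact le_of_mul_le_mul_left h5 hN0

end Pool.Agent.Y779.SM
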