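import Pool.Agent.Y779.SM.Meas
import Pool.Agent.Y779.SM.Avg

set_option autoImplicit false

/-!
# Near ergodicity of the standard map for large parameters
-/

namespace Pool.Agent.Y779.SM

open Real MeasureTheory Function Filter Topology Pool.Agent.TH705.SM

/-- the decay of the self correlations of a set -/
def Dec (a : ℝ) (R : Set T2) : Prop := ∀ l, l0 ≤ l → l ≤ |a| → ∀ n, 3 ≤ n →
  |(volume : Measure T2).real (R ∩ (S a)^[n] ⁻¹' R) - (volume : Measure T2).real R ^ 2| ≤
    2 * E1 a l 4 n

/-- the constant -/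
noncomputable def C2 : ℝ := 5 + 5 * l0 + 2 * (208 * KK * π ^ 2) + 46

theorem C2_pos : 0 < C2 := by
  have h1 := KK_one
  have h2 := l0_ge
  unfold C2
  positivity

/-- the centred indicator -/
noncomputable def cin (R : Set T2) (p : T2) : ℝ := rind R p - (volume : Measure T2).real R

theorem v_mem (R : Set T2) : 0 ≤ (volume : Measure T2).real R ∧ (volume : Measure T2).real R ≤ 1 :=
  ⟨measureReal_nonneg, measureReal_le_one⟩

theorem rind_mem (R : Set T2) (p : T2) : 0 ≤ rind R p ∧ rind R p ≤ 1 := by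
  unfold rind
  by_cases h : p ∈ R
  · rw [Set.indicator_of_mem h]
    exact ⟨zero_le_one, le_rfl⟩
  · rw [Set.indicator_of_notMem h]
    exact ⟨le_rfl, zero_le_one⟩

theorem rind_sq (R : Set T2) (p : T2) : rind R p ^ 2 = rind R p := by
  unfold rind
  by_cases h : p ∈ R
  · rw [Set.indicator_of_mem h, one_pow]
  · rw [Set.indicator_of_notMem h, zero_pow two_ne_zero]

theorem rind_int {R : Set T2} (mR : MeasurableSet R) : Integrable (rind R) :=
  intb (rind_meas mR) (rind_abs R)

theorem cin_abs (R : Set T2) (p : T2) : |cin R p| ≤ 1 := by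
  have h1 := v_mem R
  have h2 := rind_mem R p
  unfold cin
  rw [abs_le]
  constructor <;> linarith

theorem cin_meas {R : Set T2} (mR : MeasurableSet R) : Measurable (cin R) :=
  (rind_meas mR).sub measurable_const

theorem cin_sq {R : Set T2} (mR : MeasurableSet R) :
    ∫ p, cin R p ^ 2 = (volume : Measure T2).real R - (volume : Measure T2).real R ^ 2 := by
  set v := (volume : Measure T2).real R with hv
  have e : ∀ p, cin R p ^ 2 = (rind R p - (2 * v) * rind R p) + v ^ 2 := by
    intro p
    have := rind_sq R p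
    unfold cin
    rw [← hv]
    linear_combination this
  have i1 := rind_int mR
  have i2 : Integrable (fun p => 2 * v * rind R p) (volume : Measure T2) := i1.const_mul _
  have i3 : Integrable (fun p => rind R p - 2 * v * rind R p) (volume : Measure T2) := i1.sub i2
  simp only [e]
  rw [integral_add i3 (integrable_const _), integral_sub i1 i2, integral_const_mul, int_rind mR,
    ← hv, integral_const, probReal_univ, one_smul]
  ring

theorem cin_corr (a : ℝ) {R : Set T2} (mR : MeasurableSet R) (n : ℕ) :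
    ∫ p, cin R ((S a)^[n] p) * cin R p =
      (volume : Measure T2).real (R ∩ (S a)^[n] ⁻¹' R) - (volume : Measure T2).real R ^ 2 := by
  set v := (volume : Measure T2).real R with hv
  have mI : MeasurableSet (R ∩ (S a)^[n] ⁻¹' R) := mR.inter ((it_meas a n) mR)
  have mP : MeasurableSet ((S a)^[n] ⁻¹' R) := (it_meas a n) mR
  have e : ∀ p, cin R ((S a)^[n] p) * cin R p = ((rind (R ∩ (S a)^[n] ⁻¹' R) p -
      v * rind ((S a)^[n] ⁻¹' R) p) - v * rind R p) + v ^ 2 := by
    intro p
    have h1 := rind_mul R ((S a)^[n] ⁻¹' R) p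
    have h2 := rind_comp R ((S a)^[n]) p
    unfold cin
    rw [← h1, h2, ← hv]
    ring
  have i1 := rind_int mI
  have i2 : Integrable (fun p => v * rind ((S a)^[n] ⁻¹' R) p) (volume : Measure T2) :=
    (rind_int mP).const_mul _
  have i3 : Integrable (fun p => v * rind R p) (volume : Measure T2) := (rind_int mR).const_mul _
  have i4 : Integrable (fun p => rind (R ∩ (S a)^[n] ⁻¹' R) p - v * rind ((S a)^[n] ⁻¹' R) p)
    (volume : Measure T2) := i1.sub i2
  have i5 : Integrable (fun p => rind (R ∩ (S a)^[n] ⁻¹' R) p - v * rind ((S a)^[n] ⁻¹' R) p -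
    v * rind R p) (volume : Measure T2) := i4.sub i3
  have hvp : (volume : Measure T2).real ((S a)^[n] ⁻¹' R) = v := by
    rw [hv]
    unfold Measure.real
    rw [(iter_mp a n).measure_preimage mR.nullMeasurableSet]
  simp only [e]
  rw [integral_add i5 (integrable_const _), integral_sub i4 i3, integral_sub i1 i2,
    integral_const_mul, integral_const_mul, int_rind mR, int_rind mI, int_rind mP, hvp, ← hv,
    integral_const, probReal_univ, one_smul]
  ring

/-- the size of the error -/
noncomputable def ww (a : ℝ) (R : Set T2) : ℝ := ((volume : Measure T2).real R / |a|) ^ (1 / 3 : ℝ)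

theorem ww_cube (a : ℝ) (R : Set T2) : ww a R ^ 3 = (volume : Measure T2).real R / |a| := by
  unfold ww
  rw [← rpow_natCast, ← rpow_mul (div_nonneg (v_mem R).1 (abs_nonneg a))]
  norm_num

theorem ww_nonneg (a : ℝ) (R : Set T2) : 0 ≤ ww a R :=
  rpow_nonneg (div_nonneg (v_mem R).1 (abs_nonneg a)) _

/-- the key estimate -/
theorem eig {a : ℝ} (ha : 1 ≤ |a|) {R : Set T2} (mR : MeasurableSet R) (hD : Dec a R) {ζ : ℂ}
    (hζ : ‖ζ‖ = 1) {φ : T2 → ℂ} (hφ : MemLp φ 2 volume)
    (he : ∀ᵐ p : T2, φ (S a p) = ζ * φ p) :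
    ‖∫ p, (cin R p : ℂ) * φ p‖ ≤ √(C2 * ww a R) * √(∫ p, ‖φ p‖ ^ 2) := by
  have hK := KK_one
  have hl0 : (16:ℝ) ≤ l0 := l0_ge
  have ha0 : 0 < |a| := by linarith
  set v := (volume : Measure T2).real R with hv
  have hvm := v_mem R
  rw [← hv] at hvm
  set w := ww a R with hw
  have hw0 : 0 ≤ w := ww_nonneg a R
  have hw3 : w ^ 3 * |a| = v := by
    rw [hw, ww_cube, ← hv]
    field_simp
  have hsq : ∫ p, cin R p ^ 2 ≤ v := by
    rw [cin_sq mR, ← hv]
    nlinarith
  have hB : 0 ≤ 208 * KK * π ^ 2 := by positivity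
  -- the trivial estimate
  have htriv : 5 * v ≤ C2 * w →
      ‖∫ p, (cin R p : ℂ) * φ p‖ ≤ √(C2 * w) * √(∫ p, ‖φ p‖ ^ 2) := by
    intro h
    have h1 := eigen (S_mp a) (cin_meas mR) (cin_abs R) hsq le_rfl (N := 1) le_rfl
      (fun n h3 h4 => by omega) hζ hφ he
    refine h1.trans (mul_le_mul_of_nonneg_right (sqrt_le_sqrt ?_) (sqrt_nonneg _))
    rw [Nat.cast_one, div_one, add_zero]
    exact h
  rcases lt_or_ge v w with c1 | c1
  · apply htriv
    have : 5 * w ≤ C2 * w := by
      apply mul_le_mul_of_nonneg_right _ hw0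
      unfold C2
      linarith
    linarith
  rcases lt_or_ge 1 (l0 * w) with c2 | c2
  · apply htriv
    have : (5 * l0) * w ≤ C2 * w := by
      apply mul_le_mul_of_nonneg_right _ hw0
      unfold C2
      linarith
    nlinarith
  rcases eq_or_lt_of_le hw0 with h0 | hwp
  · apply htriv
    have : v = 0 := by rw [← hw3, ← h0]; ring
    rw [this, ← h0]
    simp
  -- the main case
  have hl1 : l0 ≤ 1 / w := by
    rw [le_div_iff₀ hwp]
    exact c2
  have hwa : 1 / |a| ≤ w ^ 2 := by
    rw [div_le_iff₀ ha0]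
    have : w * 1 ≤ w * (w ^ 2 * |a|) := by
      calc w * 1 ≤ v := by rw [mul_one]; exact c1
        _ = w * (w ^ 2 * |a|) := by rw [← hw3]; ring
    exact le_of_mul_le_mul_left this hwp
  have hw1 : w ≤ 1 := by nlinarith
  have hl2 : 1 / w ≤ |a| := by
    rw [div_le_iff₀ hwp]
    rw [div_le_iff₀ ha0] at hwa
    nlinarith
  set N := ⌊v / w⌋₊ with hN
  have hvw : 1 ≤ v / w := by
    rw [le_div_iff₀ hwp]
    linarith
  have hN1 : 1 ≤ N := Nat.le_floor (by rw [Nat.cast_one]; exact hvw)
  have hN2 : (N : ℝ) ≤ v / w := Nat.floor_le (by linarith)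
  have hN3 : v / w < N + 1 := Nat.lt_floor_add_one _
  have hN1' : (1:ℝ) ≤ N := by exact_mod_cast hN1
  have hE0 : 0 ≤ 2 * E1 a (1 / w) 4 N := by
    have := E1_nonneg (a := a) (l := 1 / w) (V := 4) (by positivity) (by norm_num) N
    linarith
  have h1 := eigen (S_mp a) (cin_meas mR) (cin_abs R) hsq hE0 (N := N) hN1
      (fun n h3 h4 => by
        rw [cin_corr a mR n]
        refine (hD (1 / w) hl1 hl2 n h3).trans ?_
        unfold E1
        have : (n : ℝ) ≤ N := by exact_mod_cast h4
        have h5 : 0 ≤ (1 / w) / |a| := by positivity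
        have := mul_le_mul_of_nonneg_right this h5
        linarith) hζ hφ he
  refine h1.trans (mul_le_mul_of_nonneg_right (sqrt_le_sqrt ?_) (sqrt_nonneg _))
  have e1 : 5 * v / N ≤ 10 * w := by
    rw [div_le_iff₀ (by linarith)]
    have : v < (N + 1) * w := by
      rw [div_lt_iff₀ hwp] at hN3
      exact hN3
    nlinarith
  have e2 : 2 * E1 a (1 / w) 4 N ≤ (2 * (208 * KK * π ^ 2) + 36) * w := by
    unfold E1
    have k1 : 208 * KK * π ^ 2 / (1 / w) = 208 * KK * π ^ 2 * w := by field_simp
    have k2 : 4 / (1 / w) * 4 = 16 * w := by field_simp; norm_num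
    have k3 : (N : ℝ) * (1 / w / |a|) ≤ w := by
      calc (N : ℝ) * (1 / w / |a|) ≤ (v / w) * (1 / w / |a|) :=
            mul_le_mul_of_nonneg_right hN2 (by positivity)
        _ = w := by
          rw [← hw3]
          field_simp
    rw [k1, k2]
    linarith
  have e3 : C2 * w = 10 * w + (2 * (208 * KK * π ^ 2) + 36) * w + (5 + 5 * l0) * w := by
    unfold C2
    ring
  have e4 : 0 ≤ (5 + 5 * l0) * w := by positivity
  linarith

end Pool.Agent.Y779.SM
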