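import Pool.Agent.Y779.SM.Fin

set_option autoImplicit false

/-!
# Eigenfunctions, invariant sets and frequencies of visits
-/

namespace Pool.Agent.Y779.SM

open Real MeasureTheory Function Filter Topology Pool.Agent.TH705.SM

/-- the integral against the centred indicator -/
theorem cin_int {R : Set T2} (mR : MeasurableSet R) {φ : T2 → ℂ} (hφ : Integrable φ) :
    ∫ p, (cin R p : ℂ) * φ p =
      (∫ p in R, φ p) - ((volume : Measure T2).real R : ℂ) * ∫ p, φ p := by
  have e : ∀ p, (cin R p : ℂ) * φ p = R.indicator φ p -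
      ((volume : Measure T2).real R : ℂ) * φ p := by
    intro p
    unfold cin rind
    by_cases h : p ∈ R
    · rw [Set.indicator_of_mem h, Set.indicator_of_mem h]
      push_cast
      ring
    · rw [Set.indicator_of_notMem h, Set.indicator_of_notMem h]
      push_cast
      ring
  simp only [e]
  rw [integral_sub (hφ.indicator mR) (hφ.const_mul _), integral_indicator mR, integral_const_mul]

/-- eigenfunctions -/
theorem eig2 {a : ℝ} (ha : 1 ≤ |a|) {R : Set T2} (mR : MeasurableSet R) (hD : Dec a R) {ζ : ℂ}
    (hζ : ‖ζ‖ = 1) {φ : T2 → ℂ} (hφ : MemLp φ 2 volume)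
    (he : ∀ᵐ p : T2, φ (S a p) = ζ * φ p) :
    ‖(∫ p in R, φ p) - ((volume : Measure T2).real R : ℂ) * ∫ p, φ p‖ ≤
      √(C2 * ww a R) * √(∫ p, ‖φ p‖ ^ 2) := by
  rw [← cin_int mR (hφ.integrable (by norm_num))]
  exact eig ha mR hD hζ hφ he

/-- invariant sets -/
theorem inv_set {a : ℝ} (ha : 1 ≤ |a|) {R : Set T2} (mR : MeasurableSet R) (hD : Dec a R)
    {A : Set T2} (mA : MeasurableSet A) (hA : S a ⁻¹' A =ᵐ[volume] A) :
    |(volume : Measure T2).real (A ∩ R) - (volume : Measure T2).real A *
      (volume : Measure T2).real R| ≤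
      √(C2 * ww a R) * √((volume : Measure T2).real A * (volume : Measure T2).real Aᶜ) := by
  set φ : T2 → ℂ := fun p => (cin A p : ℂ) with hφd
  have hφm : Measurable φ := Complex.measurable_ofReal.comp (cin_meas mA)
  have hφ : MemLp φ 2 volume := MemLp.of_bound hφm.aestronglyMeasurable 1
    (Filter.Eventually.of_forall fun p => by
      rw [hφd]
      simp only
      rw [Complex.norm_real, norm_eq_abs]
      exact cin_abs A p)
  have he : ∀ᵐ p : T2, φ (S a p) = 1 * φ p := by
    have h := indicator_ae_eq_of_ae_eq_set (f := fun _ : T2 => (1:ℝ)) hA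
    filter_upwards [h] with p hp
    rw [hφd, one_mul]
    simp only
    congr 1
    unfold cin
    congr 1
  have h := eig ha mR hD (ζ := 1) (by simp) hφ he
  have e1 : ∀ p, ‖φ p‖ ^ 2 = cin A p ^ 2 := by
    intro p
    rw [hφd]
    simp only
    rw [Complex.norm_real, norm_eq_abs, sq_abs]
  have e2 : (volume : Measure T2).real A * (volume : Measure T2).real Aᶜ =
      (volume : Measure T2).real A - (volume : Measure T2).real A ^ 2 := by
    rw [probReal_compl_eq_one_sub mA]
    ring
  simp only [e1] at h
  rw [cin_sq mA, ← e2] at h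
  have e3 : ∫ p, (cin R p : ℂ) * φ p = ((((volume : Measure T2).real (A ∩ R) -
      (volume : Measure T2).real A * (volume : Measure T2).real R : ℝ)) : ℂ) := by
    have e4 : ∀ p, (cin R p : ℂ) * φ p = ((cin R p * cin A p : ℝ) : ℂ) := by
      intro p
      rw [hφd]
      push_cast
      ring
    simp only [e4]
    rw [integral_complex_ofReal]
    congr 1
    have e5 : ∀ p, cin R p * cin A p = (rind (A ∩ R) p - (volume : Measure T2).real R * rind A p) -
        (volume : Measure T2).real A * rind R p +
          (volume : Measure T2).real A * (volume : Measure T2).real R := by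
      intro p
      rw [← rind_mul]
      unfold cin
      ring
    have i1 := rind_int (mA.inter mR)
    have i2 : Integrable (fun p => (volume : Measure T2).real R * rind A p) :=
      (rind_int mA).const_mul _
    have i3 : Integrable (fun p => (volume : Measure T2).real A * rind R p) :=
      (rind_int mR).const_mul _
    have i4 : Integrable (fun p => rind (A ∩ R) p - (volume : Measure T2).real R * rind A p) :=
      i1.sub i2
    have i5 : Integrable (fun p => rind (A ∩ R) p - (volume : Measure T2).real R * rind A p -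
        (volume : Measure T2).real A * rind R p) := i4.sub i3
    simp only [e5]
    rw [integral_add i5 (integrable_const _), integral_sub i4 i3, integral_sub i1 i2,
      integral_const_mul, integral_const_mul, int_rind mR, int_rind (mA.inter mR), int_rind mA,
      integral_const, probReal_univ, one_smul]
    ring
  rw [e3, Complex.norm_real, norm_eq_abs] at h
  exact h

open Classical in
/-- frequencies of visits -/
theorem freq0 (a : ℝ) {R : Set T2} (mR : MeasurableSet R) :
    ∃ f : T2 → ℝ, Measurable f ∧ (∀ p, f (S a p) = f p) ∧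
      (∀ᵐ p : T2, Tendsto (fun N : ℕ =>
        (((Finset.range N).filter fun k => (S a)^[k] p ∈ R).card : ℝ) / N) atTop (𝓝 (f p))) ∧
      Integrable (fun p => (f p - (volume : Measure T2).real R) ^ 2) ∧
      (∀ᵐ p : T2, |f p - (volume : Measure T2).real R| ≤ 1) ∧
      ∫ p, (cin R p : ℂ) * ((f p - (volume : Measure T2).real R : ℝ) : ℂ) =
        ((∫ p, (f p - (volume : Measure T2).real R) ^ 2 : ℝ) : ℂ) := by
  set f : T2 → ℝ := (volume : Measure T2)[rind R | MeasurableSpace.invariants (S a)] with hf
  have hle := MeasurableSpace.invariants_le (S a)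
  have hsm : StronglyMeasurable[MeasurableSpace.invariants (S a)] f := stronglyMeasurable_condExp
  have hfm' : Measurable[MeasurableSpace.invariants (S a)] f := hsm.measurable
  have hfm : Measurable f := hfm'.mono hle le_rfl
  have hinv : ∀ p, f (S a p) = f p := fun p =>
    congrFun (MeasurableSpace.comp_eq_of_measurable_invariants hfm') p
  have hb : ∀ᵐ p : T2, |f p| ≤ 1 :=
    ae_bdd_abs_condExp_of_ae_bdd_abs (Filter.Eventually.of_forall fun p => rind_abs R p)
  have hb0 : ∀ᵐ p : T2, 0 ≤ f p :=
    condExp_nonneg (Filter.Eventually.of_forall fun p => (rind_mem R p).1)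
  set v := (volume : Measure T2).real R with hv
  have hvm := v_mem R
  rw [← hv] at hvm
  have hg : StronglyMeasurable[MeasurableSpace.invariants (S a)] (fun p => f p - v) :=
    hsm.sub stronglyMeasurable_const
  have hgm : Measurable (fun p => f p - v) := hfm.sub measurable_const
  have hgb : ∀ᵐ p : T2, |f p - v| ≤ 1 := by
    filter_upwards [hb, hb0] with p hp hp0
    rw [abs_le] at hp ⊢
    constructor <;> linarith [hvm.1, hvm.2]
  have ig2 : Integrable (fun p => (f p - v) ^ 2) := by
    refine Integrable.mono' (integrable_const 1) (hgm.pow_const 2).aestronglyMeasurable ?_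
    filter_upwards [hgb] with p hp
    rw [norm_eq_abs, abs_pow]
    exact pow_le_one₀ (abs_nonneg _) hp
  refine ⟨f, hfm, hinv, ?_, ig2, hgb, ?_⟩
  · have h := Pool.Agent.H165R3.BPE.birkhoff (S_mp a) (rind R) (rind_meas mR) 1 (rind_abs R)
    filter_upwards [h] with p hp
    refine hp.congr fun N => ?_
    rw [div_eq_inv_mul]
    congr 1
    have : ∀ k, rind R ((S a)^[k] p) = if (S a)^[k] p ∈ R then (1:ℝ) else 0 := by
      intro k
      unfold rind
      rw [Set.indicator_apply]
    simp only [this]
    rw [Finset.sum_boole]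
  · have e4 : ∀ p, (cin R p : ℂ) * ((f p - v : ℝ) : ℂ) = ((cin R p * (f p - v) : ℝ) : ℂ) := by
      intro p
      push_cast
      ring
    simp only [e4]
    rw [integral_complex_ofReal]
    congr 1
    have i0 := rind_int mR
    have i1 : Integrable (rind R * fun p => f p - v) := by
      refine Integrable.mono' (integrable_const 1)
        ((rind_meas mR).mul hgm).aestronglyMeasurable ?_
      filter_upwards [hgb] with p hp
      rw [Pi.mul_apply, norm_mul, norm_eq_abs (rind R p), norm_eq_abs]
      exact mul_le_one₀ (rind_abs R p) (abs_nonneg _) hp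
    have i2 : Integrable (fun p => v * (f p - v)) := by
      refine Integrable.mono' (integrable_const 1)
        (measurable_const.mul hgm).aestronglyMeasurable ?_
      filter_upwards [hgb] with p hp
      rw [norm_mul, norm_eq_abs v, norm_eq_abs, abs_of_nonneg hvm.1]
      exact mul_le_one₀ hvm.2 (abs_nonneg _) hp
    have c1 := condExp_mul_of_stronglyMeasurable_right (μ := (volume : Measure T2)) hg i1 i0
    have c2 : ∫ p, rind R p * (f p - v) = ∫ p, f p * (f p - v) := by
      have k1 := integral_condExp (μ := (volume : Measure T2)) (f := rind R * fun p => f p - v) hle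
      rw [integral_congr_ae c1] at k1
      exact k1.symm
    have i3 : Integrable (fun p => f p * (f p - v)) := by
      refine Integrable.mono' (integrable_const 1)
        (hfm.mul hgm).aestronglyMeasurable ?_
      filter_upwards [hgb, hb] with p hp hp2
      rw [norm_mul, norm_eq_abs (f p), norm_eq_abs]
      exact mul_le_one₀ hp2 (abs_nonneg _) hp
    have e5 : ∀ p, cin R p * (f p - v) = rind R p * (f p - v) - v * (f p - v) := by
      intro p
      unfold cin
      ring
    have i1' : Integrable (fun p => rind R p * (f p - v)) := i1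
    simp only [e5]
    rw [integral_sub i1' i2, c2, ← integral_sub i3 i2]
    congr 1
    ext p
    ring

open Classical in
/-- frequencies of visits -/
theorem freq {a : ℝ} (ha : 1 ≤ |a|) {R : Set T2} (mR : MeasurableSet R) (hD : Dec a R) :
    ∃ f : T2 → ℝ, Measurable f ∧ (∀ p, f (S a p) = f p) ∧
      (∀ᵐ p : T2, Tendsto (fun N : ℕ =>
        (((Finset.range N).filter fun k => (S a)^[k] p ∈ R).card : ℝ) / N) atTop (𝓝 (f p))) ∧
      Integrable (fun p => (f p - (volume : Measure T2).real R) ^ 2) ∧
      ∫ p, (f p - (volume : Measure T2).real R) ^ 2 ≤ C2 * ww a R := by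
  obtain ⟨f, hfm, hinv, hfr, ig2, hgb, e2⟩ := freq0 a mR
  refine ⟨f, hfm, hinv, hfr, ig2, ?_⟩
  set v := (volume : Measure T2).real R with hv
  have hgm : Measurable (fun p => f p - v) := hfm.sub measurable_const
  set D := ∫ p, (f p - v) ^ 2 with hDd
  have hD0 : 0 ≤ D := integral_nonneg fun p => sq_nonneg _
  set φ : T2 → ℂ := fun p => ((f p - v : ℝ) : ℂ) with hφd
  have hφ : MemLp φ 2 volume := by
    refine MemLp.of_bound (Complex.measurable_ofReal.comp hgm).aestronglyMeasurable 1 ?_
    filter_upwards [hgb] with p hp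
    rw [hφd]
    simp only
    rw [Complex.norm_real]
    exact hp
  have he : ∀ᵐ p : T2, φ (S a p) = 1 * φ p := by
    refine Filter.Eventually.of_forall fun p => ?_
    rw [hφd, one_mul]
    simp only
    rw [hinv]
  have h := eig ha mR hD (ζ := 1) (by simp) hφ he
  have e1 : ∀ p, ‖φ p‖ ^ 2 = (f p - v) ^ 2 := by
    intro p
    rw [hφd]
    simp only
    rw [Complex.norm_real, norm_eq_abs, sq_abs]
  simp only [e1] at h
  rw [← hDd, e2, Complex.norm_real, norm_eq_abs, abs_of_nonneg hD0] at h
  rcases eq_or_lt_of_le hD0 with h0 | h0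
  · rw [← h0]
    exact mul_nonneg C2_pos.le (ww_nonneg a R)
  · have h1 : 0 < √D := sqrt_pos.2 h0
    have h2 : √D * √D ≤ √(C2 * ww a R) * √D := by
      rw [mul_self_sqrt hD0]
      exact h
    have h3 := le_of_mul_le_mul_right h2 h1
    exact (sqrt_le_sqrt_iff (mul_nonneg C2_pos.le (ww_nonneg a R))).1 h3

/-- correlations of a pair of sets -/
def Dec2 (a : ℝ) (R R' : Set T2) : Prop := ∀ l, l0 ≤ l → l ≤ |a| → ∀ n, 3 ≤ n →
  |(volume : Measure T2).real (R ∩ (S a)^[n] ⁻¹' R') - (volume : Measure T2).real R *
    (volume : Measure T2).real R'| ≤ 2 * E1 a l 4 n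

/-- finite time decay of correlations -/
theorem fin_time {a : ℝ} (ha : 1 ≤ |a|) {R R' : Set T2} (hD : Dec2 a R R') {n : ℕ} (hn : 3 ≤ n) :
    |(volume : Measure T2).real (R ∩ (S a)^[n] ⁻¹' R') - (volume : Measure T2).real R *
      (volume : Measure T2).real R'| ≤ C2 * √(n / |a|) := by
  have hK := KK_one
  have hl0 : (16:ℝ) ≤ l0 := l0_ge
  have ha0 : 0 < |a| := by linarith
  have hn0 : (3:ℝ) ≤ n := by exact_mod_cast hn
  set u := √((n : ℝ) / |a|) with hu
  have hu0 : 0 < u := sqrt_pos.2 (by positivity)
  have hu2 : u ^ 2 * |a| = n := by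
    rw [hu, sq_sqrt (by positivity)]
    field_simp
  have hB : 0 ≤ 208 * KK * π ^ 2 := by positivity
  rcases lt_or_ge 1 (l0 * u) with c2 | c2
  · have h1 : |(volume : Measure T2).real (R ∩ (S a)^[n] ⁻¹' R') - (volume : Measure T2).real R *
      (volume : Measure T2).real R'| ≤ 1 := by
      have k1 := v_mem (R ∩ (S a)^[n] ⁻¹' R')
      have k2 := v_mem R
      have k3 := v_mem R'
      have k4 : (volume : Measure T2).real R * (volume : Measure T2).real R' ≤ 1 :=
        mul_le_one₀ k2.2 k3.1 k3.2
      have k5 : 0 ≤ (volume : Measure T2).real R * (volume : Measure T2).real R' :=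
        mul_nonneg k2.1 k3.1
      rw [abs_le]
      constructor <;> linarith
    refine h1.trans ?_
    have : l0 * u ≤ C2 * u := by
      apply mul_le_mul_of_nonneg_right _ hu0.le
      unfold C2
      linarith
    linarith
  · have hl1 : l0 ≤ 1 / u := by
      rw [le_div_iff₀ hu0]
      exact c2
    have hl2 : 1 / u ≤ |a| := by
      rw [div_le_iff₀ hu0]
      have hu1 : u ≤ 1 := by nlinarith
      nlinarith
    refine (hD (1 / u) hl1 hl2 n hn).trans ?_
    unfold E1
    have k1 : 208 * KK * π ^ 2 / (1 / u) = 208 * KK * π ^ 2 * u := by field_simp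
    have k2 : 4 / (1 / u) * 4 = 16 * u := by field_simp; norm_num
    have k3 : (n : ℝ) * (1 / u / |a|) = u := by
      rw [← hu2]
      field_simp
    have k4 : 2 * (n : ℝ) * (1 / u / |a|) = 2 * u := by
      rw [mul_assoc, k3]
    rw [k1, k2, k4]
    have e3 : C2 * u = (2 * (208 * KK * π ^ 2) + 36) * u + (15 + 5 * l0) * u := by
      unfold C2
      ring
    have e4 : 0 ≤ (15 + 5 * l0) * u := by positivity
    linarith

end Pool.Agent.Y779.SM
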