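import Pool.Agent.Y779.SM.Fin2

set_option autoImplicit false

/-!
# From rectangles to all Borel sets
-/

namespace Pool.Agent.Y779.SM

open Real MeasureTheory Function Filter Topology Pool.Agent.TH705.SM

/-- the representative in `[0, 1)` -/
noncomputable def rep (x : UnitAddCircle) : ℝ := (AddCircle.measurableEquivIco 1 0 x : ℝ)

theorem rep_meas : Measurable rep :=
  measurable_subtype_coe.comp (AddCircle.measurableEquivIco 1 0).measurable

theorem rep_coe (x : UnitAddCircle) : ((rep x : ℝ) : UnitAddCircle) = x :=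
  AddCircle.coe_equivIco (p := 1) (a := 0)

theorem rep_mem (x : UnitAddCircle) : 0 ≤ rep x ∧ rep x < 1 := by
  have h := (AddCircle.measurableEquivIco 1 0 x).2
  refine ⟨h.1, ?_⟩
  exact h.2.trans_eq (zero_add 1)

/-- every arc starting at `0` is a closed ball -/
theorem arc_ball (x : ℝ) : ∃ (c : UnitAddCircle) (r : ℝ), rep ⁻¹' (Set.Iic x) = Metric.closedBall c r := by
  rcases lt_or_ge x 0 with h | h
  · refine ⟨0, -1, ?_⟩
    rw [Metric.closedBall_eq_empty.2 (by norm_num : (-1:ℝ) < 0)]
    ext c
    simp only [Set.mem_preimage, Set.mem_Iic, Set.mem_empty_iff_false, iff_false, not_le]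
    exact h.trans_le (rep_mem c).1
  rcases lt_or_ge x 1 with h1 | h1
  · refine ⟨((x / 2 : ℝ) : UnitAddCircle), x / 2, ?_⟩
    ext c
    rw [Set.mem_preimage, Set.mem_Iic, Metric.mem_closedBall]
    obtain ⟨h2, h3⟩ := rep_mem c
    have h4 := rep_coe c
    set t := rep c with ht
    rw [← h4, dist_eq_norm, ← AddCircle.coe_sub, UnitAddCircle.norm_eq]
    constructor
    · intro h5
      have h6 : |t - x / 2| ≤ 1 / 2 := by
        rw [abs_le]
        constructor <;> linarith
      rcases eq_or_lt_of_le h6 with h7 | h7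
      · have h8 : t - x / 2 ≤ x / 2 := by linarith
        have h9 : -(x / 2) ≤ t - x / 2 := by linarith
        have := abs_le.2 ⟨h9, h8⟩
        linarith
      · have h8 : round (t - x / 2) = 0 := by
          rw [round_eq_zero_iff]
          rw [abs_lt] at h7
          exact ⟨by linarith [h7.1], by linarith [h7.2]⟩
        rw [h8, Int.cast_zero, sub_zero, abs_le]
        constructor <;> linarith
    · intro h5
      by_contra h6
      push Not at h6
      have h7 : |t - x / 2 - round (t - x / 2)| ≤ x / 2 := h5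
      rw [abs_le] at h7
      have h8 : (0:ℝ) < round (t - x / 2) := by linarith [h7.2]
      have h9 : ((round (t - x / 2) : ℤ) : ℝ) < 1 := by linarith [h7.1]
      have h10 : 0 < round (t - x / 2) := by exact_mod_cast h8
      have h11 : round (t - x / 2) < 1 := by exact_mod_cast h9
      omega
  · refine ⟨0, 1, ?_⟩
    ext c
    rw [Set.mem_preimage, Set.mem_Iic, Metric.mem_closedBall]
    have h2 := (rep_mem c).2
    have h3 := rep_coe c
    constructor
    · intro _
      rw [← h3, dist_zero_right, UnitAddCircle.norm_eq]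
      have := abs_sub_round (rep c)
      linarith
    · intro _
      linarith

variable {K : Type*} {F : Filter K} {M : Type*} [NormedAddCommGroup M] {Φ : K → Set T2 → M}

/-- countable unions -/
theorem tend_union
    (hadd : ∀ k A B, MeasurableSet A → MeasurableSet B → Disjoint A B →
      Φ k (A ∪ B) = Φ k A + Φ k B)
    (hbd : ∀ k B, MeasurableSet B → ‖Φ k B‖ ≤ 2 * (volume : Measure T2).real B)
    {f : ℕ → Set T2} (hd : Pairwise (Disjoint on f)) (hm : ∀ i, MeasurableSet (f i))
    (hf : ∀ i, Tendsto (fun k => Φ k (f i)) F (𝓝 0)) :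
    Tendsto (fun k => Φ k (⋃ i, f i)) F (𝓝 0) := by
  set V : ℕ → Set T2 := fun n => ⋃ i ≥ n, f i with hV
  have mV : ∀ n, MeasurableSet (V n) := fun n =>
    MeasurableSet.iUnion fun i => MeasurableSet.iUnion fun _ => hm i
  have hVs : ∀ n, V n = f n ∪ V (n + 1) := by
    intro n
    ext x
    simp only [hV, Set.mem_iUnion, Set.mem_union, ge_iff_le, exists_prop]
    constructor
    · rintro ⟨i, h1, h2⟩
      rcases eq_or_lt_of_le h1 with h3 | h3
      · left
        rwa [h3]
      · exact Or.inr ⟨i, h3, h2⟩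
    · rintro (h | ⟨i, h1, h2⟩)
      · exact ⟨n, le_rfl, h⟩
      · exact ⟨i, by omega, h2⟩
  have hVd : ∀ n, Disjoint (f n) (V (n + 1)) := by
    intro n
    rw [Set.disjoint_iff]
    intro x hx
    simp only [hV, Set.mem_inter_iff, Set.mem_iUnion, ge_iff_le, exists_prop] at hx
    obtain ⟨h1, i, h2, h3⟩ := hx
    exact Set.disjoint_iff.1 (hd (by omega : n ≠ i)) ⟨h1, h3⟩
  have hsum : ∀ k n, Φ k (⋃ i, f i) = (∑ i ∈ Finset.range n, Φ k (f i)) + Φ k (V n) := by
    intro k n
    induction n with
    | zero =>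
      rw [Finset.sum_range_zero, zero_add]
      congr 1
      simp [hV]
    | succ n ih =>
      rw [ih, Finset.sum_range_succ, hVs n, hadd k _ _ (hm n) (mV (n + 1)) (hVd n)]
      abel
  have hV0 : Tendsto (fun n => (volume : Measure T2).real (V n)) atTop (𝓝 0) := by
    have h := tendsto_measure_biUnion_Ici_zero_of_pairwise_disjoint
      (μ := (volume : Measure T2)) (fun i => (hm i).nullMeasurableSet) hd
    have h2 := (ENNReal.tendsto_toReal ENNReal.zero_ne_top).comp h
    exact h2
  rw [Metric.tendsto_nhds]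
  intro ε hε
  obtain ⟨n, hn⟩ := ((tendsto_order.1 hV0).2 (ε / 4) (by positivity)).exists
  have h1 : Tendsto (fun k => ∑ i ∈ Finset.range n, Φ k (f i)) F (𝓝 0) := by
    have := tendsto_finsetSum (Finset.range n) fun i _ => hf i
    simpa using this
  rw [Metric.tendsto_nhds] at h1
  filter_upwards [h1 (ε / 2) (by positivity)] with k hk
  rw [dist_zero_right] at hk ⊢
  rw [hsum k n]
  have h2 := hbd k (V n) (mV n)
  have h3 := norm_add_le (∑ i ∈ Finset.range n, Φ k (f i)) (Φ k (V n))
  linarith

/-- from rectangles to all Borel sets -/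
theorem lam
    (hadd : ∀ k A B, MeasurableSet A → MeasurableSet B → Disjoint A B →
      Φ k (A ∪ B) = Φ k A + Φ k B)
    (hbd : ∀ k B, MeasurableSet B → ‖Φ k B‖ ≤ 2 * (volume : Measure T2).real B)
    (huniv : ∀ k, Φ k Set.univ = 0)
    (hrect : ∀ E : Set UnitAddCircle, MeasurableSet E → ∀ (c : UnitAddCircle) (r : ℝ),
      Tendsto (fun k => Φ k (E ×ˢ Metric.closedBall c r)) F (𝓝 0))
    {B : Set T2} (mB : MeasurableSet B) : Tendsto (fun k => Φ k B) F (𝓝 0) := by
  have huc : ∃ (c : UnitAddCircle) (r : ℝ), Metric.closedBall c r = Set.univ := by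
    obtain ⟨c, r, h⟩ := arc_ball 1
    refine ⟨c, r, ?_⟩
    rw [← h]
    ext x
    simp only [Set.mem_preimage, Set.mem_Iic, Set.mem_univ, iff_true]
    exact (rep_mem x).2.le
  have hempty : Tendsto (fun k => Φ k ∅) F (𝓝 0) := by
    have h := hrect ∅ MeasurableSet.empty 0 0
    simpa using h
  -- all measurable rectangles
  have h1 : ∀ E : Set UnitAddCircle, MeasurableSet E → ∀ G : Set ℝ, MeasurableSet G →
      Tendsto (fun k => Φ k (E ×ˢ (rep ⁻¹' G))) F (𝓝 0) := by
    intro E mE G mG
    have hbor : (inferInstance : MeasurableSpace ℝ) = MeasurableSpace.generateFrom (Set.range Set.Iic) := by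
      rw [← borel_eq_generateFrom_Iic]
      exact BorelSpace.measurable_eq
    refine MeasurableSpace.induction_on_inter
      (C := fun G _ => Tendsto (fun k => Φ k (E ×ˢ (rep ⁻¹' G))) F (𝓝 0))
      hbor isPiSystem_Iic ?_ ?_ ?_ ?_ G mG
    · simpa using hempty
    · rintro _ ⟨x, rfl⟩
      obtain ⟨c, r, h⟩ := arc_ball x
      rw [h]
      exact hrect E mE c r
    · intro G mG hG
      obtain ⟨c, r, hcr⟩ := huc
      have h2 := (hrect E mE c r).sub hG
      rw [sub_zero, hcr] at h2
      refine h2.congr fun k => ?_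
      have h3 : (E ×ˢ (Set.univ : Set UnitAddCircle)) =
          (E ×ˢ (rep ⁻¹' G)) ∪ (E ×ˢ (rep ⁻¹' Gᶜ)) := by
        rw [← Set.prod_union, Set.preimage_compl, Set.union_compl_self]
      rw [h3, hadd k _ _ (mE.prod (rep_meas mG)) (mE.prod (rep_meas mG.compl))]
      · abel
      · rw [Set.preimage_compl, Set.disjoint_prod]
        exact Or.inr disjoint_compl_right
    · intro f hd hm hf
      rw [Set.preimage_iUnion, Set.prod_iUnion]
      refine tend_union hadd hbd ?_ (fun i => mE.prod (rep_meas (hm i))) hf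
      intro i j hij
      have := hd hij
      simp only [Function.onFun] at this ⊢
      rw [Set.disjoint_prod]
      exact Or.inr (this.preimage rep)
  have h2 : ∀ E : Set UnitAddCircle, MeasurableSet E → ∀ G : Set UnitAddCircle, MeasurableSet G →
      Tendsto (fun k => Φ k (E ×ˢ G)) F (𝓝 0) := by
    intro E mE G mG
    have h3 : G = rep ⁻¹' ((fun t : ℝ => (t : UnitAddCircle)) ⁻¹' G) := by
      ext x
      simp only [Set.mem_preimage, rep_coe]
    rw [h3]
    exact h1 E mE _ (AddCircle.measurable_mk' mG)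
  refine MeasurableSpace.induction_on_inter
      (C := fun B _ => Tendsto (fun k => Φ k B) F (𝓝 0)) generateFrom_prod.symm isPiSystem_prod
      hempty ?_ ?_ ?_ B mB
  · rintro _ ⟨E, mE, G, mG, rfl⟩
    exact h2 E mE G mG
  · intro G mG hG
    have h3 := hG.neg
    rw [neg_zero] at h3
    refine h3.congr fun k => ?_
    have h4 := hadd k G Gᶜ mG mG.compl disjoint_compl_right
    rw [Set.union_compl_self, huniv] at h4
    exact (eq_neg_of_add_eq_zero_right h4.symm).symm
  · intro f hd hm hf
    exact tend_union hadd hbd hd hm hf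

end Pool.Agent.Y779.SM
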