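import Pool.Agent.Y779.SM.Rect

set_option autoImplicit false

/-!
# Correlations of rectangles, in terms of measures
-/

namespace Pool.Agent.Y779.SM

open Real MeasureTheory Function Filter Topology Pool.Agent.TH705.SM

/-- indicator of a set of the torus -/
noncomputable def rind (R : Set T2) : T2 → ℝ := R.indicator fun _ => 1

theorem rind_meas {R : Set T2} (hR : MeasurableSet R) : Measurable (rind R) :=
  measurable_const.indicator hR

theorem rind_abs (R : Set T2) (p : T2) : |rind R p| ≤ 1 := by
  unfold rind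
  by_cases h : p ∈ R
  · rw [Set.indicator_of_mem h, abs_one]
  · rw [Set.indicator_of_notMem h, abs_zero]
    exact zero_le_one

theorem int_rind {R : Set T2} (hR : MeasurableSet R) : ∫ p, rind R p = (volume : Measure T2).real R := by
  unfold rind
  rw [integral_indicator hR, setIntegral_const, smul_eq_mul, mul_one]

theorem rind_mul (R R' : Set T2) (p : T2) : rind R p * rind R' p = rind (R ∩ R') p := by
  unfold rind
  by_cases h1 : p ∈ R
  · by_cases h2 : p ∈ R'
    · rw [Set.indicator_of_mem h1, Set.indicator_of_mem h2, Set.indicator_of_mem (Set.mem_inter h1 h2), mul_one]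
    · rw [Set.indicator_of_notMem h2, mul_zero, Set.indicator_of_notMem fun h => h2 h.2]
  · rw [Set.indicator_of_notMem h1, zero_mul, Set.indicator_of_notMem fun h => h1 h.1]

theorem rind_comp (R : Set T2) (f : T2 → T2) (p : T2) : rind R (f p) = rind (f ⁻¹' R) p := rfl

theorem rind_prod (E J : Set UnitAddCircle) (p : T2) : rind (E ×ˢ J) p = ind E p.1 * ind J p.2 := by
  unfold rind ind
  by_cases h1 : p.1 ∈ E
  · by_cases h2 : p.2 ∈ J
    · rw [Set.indicator_of_mem (Set.mk_mem_prod h1 h2 : (p.1, p.2) ∈ E ×ˢ J),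
        Set.indicator_of_mem h1, Set.indicator_of_mem h2, mul_one]
    · rw [Set.indicator_of_notMem h2, mul_zero, Set.indicator_of_notMem]
      exact fun h => h2 h.2
  · rw [Set.indicator_of_notMem h1, zero_mul, Set.indicator_of_notMem]
    exact fun h => h1 h.1

/-- closed arcs and open arcs -/
theorem ind_closed (c : UnitAddCircle) (r : ℝ) :
    ∀ᵐ x : UnitAddCircle, ind (Metric.closedBall c r) x = ind (Metric.ball c r) x := by
  have h := AddCircle.closedBall_ae_eq_ball (T := 1) (x := c) (ε := r)
  exact indicator_ae_eq_of_ae_eq_set h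

theorem ind_closed2 (c : UnitAddCircle) (r : ℝ) :
    ∀ᵐ p : T2, ind (Metric.closedBall c r) p.2 = ind (Metric.ball c r) p.2 := by
  have h7 : MeasurePreserving (Prod.snd : T2 → UnitAddCircle)
      ((volume : Measure UnitAddCircle).prod volume) volume := measurePreserving_snd
  exact h7.quasiMeasurePreserving.ae (ind_closed c r)

theorem rind_closed (E : Set UnitAddCircle) (c : UnitAddCircle) (r : ℝ) :
    ∀ᵐ p : T2, rind (E ×ˢ Metric.closedBall c r) p = ind E p.1 * ind (Metric.ball c r) p.2 := by
  filter_upwards [ind_closed2 c r] with p hp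
  rw [rind_prod, hp]

/-- the set version for vertical rectangles -/
theorem vdec {a l : ℝ} (hl' : l0 ≤ l) (hla : l ≤ |a|) {n : ℕ} (hn : 3 ≤ n)
    {E E2 : Set UnitAddCircle} (mE : MeasurableSet E) (mE2 : MeasurableSet E2)
    (c : UnitAddCircle) (r : ℝ) (c2 : UnitAddCircle) (r2 : ℝ) :
    |(volume : Measure T2).real ((E2 ×ˢ Metric.closedBall c2 r2) ∩
        (S a)^[n] ⁻¹' (E ×ˢ Metric.closedBall c r)) -
      (volume : Measure T2).real (E2 ×ˢ Metric.closedBall c2 r2) *
        (volume : Measure T2).real (E ×ˢ Metric.closedBall c r)| ≤ 2 * E1 a l 4 n := by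
  have mR : MeasurableSet (E ×ˢ Metric.closedBall c r : Set T2) :=
    mE.prod Metric.isClosed_closedBall.measurableSet
  have mR2 : MeasurableSet (E2 ×ˢ Metric.closedBall c2 r2 : Set T2) :=
    mE2.prod Metric.isClosed_closedBall.measurableSet
  have k1 : (volume : Measure T2).real ((E2 ×ˢ Metric.closedBall c2 r2) ∩
        (S a)^[n] ⁻¹' (E ×ˢ Metric.closedBall c r)) =
      cc a n (ind E) (ind (Metric.ball c r)) (ind E2) (ind (Metric.ball c2 r2)) := by
    rw [← int_rind (mR2.inter ((it_meas a n) mR))]
    unfold cc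
    refine integral_congr_ae ?_
    filter_upwards [rind_closed E2 c2 r2,
      (iter_mp a n).quasiMeasurePreserving.ae (rind_closed E c r)] with p h1 h2
    rw [← rind_mul, ← rind_comp, h1, h2, mul_comm]
  have k2 : (volume : Measure T2).real (E ×ˢ Metric.closedBall c r) =
      mm (ind E) (ind (Metric.ball c r)) := by
    rw [← int_rind mR]
    unfold mm
    exact integral_congr_ae (rind_closed E c r)
  have k3 : (volume : Measure T2).real (E2 ×ˢ Metric.closedBall c2 r2) =
      mm (ind E2) (ind (Metric.ball c2 r2)) := by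
    rw [← int_rind mR2]
    unfold mm
    exact integral_congr_ae (rind_closed E2 c2 r2)
  rw [k1, k2, k3, mul_comm (mm (ind E2) _)]
  induction c using QuotientAddGroup.induction_on with
  | H c =>
    induction c2 using QuotientAddGroup.induction_on with
    | H c2 => exact decor2 hl' hla hn mE mE2 c r c2 r2

/-- the symmetry -/
theorem swap_S (a : ℝ) (q : T2) : S a (Prod.swap (S a q)) = Prod.swap q := by
  have h := Si_S a q
  have h2 : Prod.swap (S a (Prod.swap (S a q))) = Si a (S a q) := rfl
  rw [h] at h2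
  have h3 := congrArg Prod.swap h2
  rwa [Prod.swap_swap] at h3

theorem swap_iter (a : ℝ) (n : ℕ) (q : T2) : (S a)^[n] (Prod.swap ((S a)^[n] q)) = Prod.swap q := by
  induction n generalizing q with
  | zero => rfl
  | succ n ih =>
    rw [iterate_succ_apply, iterate_succ_apply' (S a) n q, swap_S]
    exact ih q

theorem swap_mp : MeasurePreserving (Prod.swap : T2 → T2) volume volume := by
  have : MeasurePreserving (Prod.swap : T2 → T2)
      ((volume : Measure UnitAddCircle).prod volume) ((volume : Measure UnitAddCircle).prod volume) :=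
    Measure.measurePreserving_swap
  exact this

theorem swap_prod (E J : Set UnitAddCircle) : (Prod.swap : T2 → T2) ⁻¹' (E ×ˢ J) = J ×ˢ E :=
  Set.preimage_swap_prod E J

/-- reflection of correlations -/
theorem refl_corr (a : ℝ) (n : ℕ) {R R2 : Set T2} (mR : MeasurableSet R) (mR2 : MeasurableSet R2) :
    (volume : Measure T2).real ((Prod.swap ⁻¹' R2) ∩ (S a)^[n] ⁻¹' (Prod.swap ⁻¹' R)) =
      (volume : Measure T2).real (R ∩ (S a)^[n] ⁻¹' R2) := by
  have mp : MeasurePreserving (fun q : T2 => Prod.swap ((S a)^[n] q)) volume volume :=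
    swap_mp.comp (iter_mp a n)
  have mA : MeasurableSet ((Prod.swap ⁻¹' R2) ∩ (S a)^[n] ⁻¹' (Prod.swap ⁻¹' R) : Set T2) :=
    (swap_mp.measurable mR2).inter ((it_meas a n) (swap_mp.measurable mR))
  have h := mp.measure_preimage mA.nullMeasurableSet
  have e : (fun q : T2 => Prod.swap ((S a)^[n] q)) ⁻¹'
      ((Prod.swap ⁻¹' R2) ∩ (S a)^[n] ⁻¹' (Prod.swap ⁻¹' R)) = R ∩ (S a)^[n] ⁻¹' R2 := by
    ext q
    simp only [Set.mem_preimage, Set.mem_inter_iff, swap_iter, Prod.swap_swap]
    exact and_comm
  unfold Measure.real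
  rw [← h, e]

/-- the set version for horizontal rectangles -/
theorem hdec {a l : ℝ} (hl' : l0 ≤ l) (hla : l ≤ |a|) {n : ℕ} (hn : 3 ≤ n)
    {E E2 : Set UnitAddCircle} (mE : MeasurableSet E) (mE2 : MeasurableSet E2)
    (c : UnitAddCircle) (r : ℝ) (c2 : UnitAddCircle) (r2 : ℝ) :
    |(volume : Measure T2).real ((Metric.closedBall c2 r2 ×ˢ E2) ∩
        (S a)^[n] ⁻¹' (Metric.closedBall c r ×ˢ E)) -
      (volume : Measure T2).real (Metric.closedBall c2 r2 ×ˢ E2) *
        (volume : Measure T2).real (Metric.closedBall c r ×ˢ E)| ≤ 2 * E1 a l 4 n := by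
  have mR : MeasurableSet (E ×ˢ Metric.closedBall c r : Set T2) :=
    mE.prod Metric.isClosed_closedBall.measurableSet
  have mR2 : MeasurableSet (E2 ×ˢ Metric.closedBall c2 r2 : Set T2) :=
    mE2.prod Metric.isClosed_closedBall.measurableSet
  have hsw : ∀ {R : Set T2}, MeasurableSet R →
      (volume : Measure T2).real (Prod.swap ⁻¹' R) = (volume : Measure T2).real R := by
    intro R hR
    unfold Measure.real
    rw [swap_mp.measure_preimage hR.nullMeasurableSet]
  have h := vdec hl' hla hn mE2 mE c2 r2 c r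
  rw [← swap_prod E2, ← swap_prod E, refl_corr a n mR mR2, hsw mR, hsw mR2, mul_comm]
  exact h

end Pool.Agent.Y779.SM
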