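import Pool.Agent.TH705.SM.Corr

set_option autoImplicit false

/-!
# Decay of correlations for product observables of the standard map
-/

namespace Pool.Agent.Y779.SM

open Real MeasureTheory Function Pool.Agent.TH705.SM

/-- the bound for the correlations -/
noncomputable def E1 (a l V : ℝ) (n : ℕ) : ℝ := 208 * KK * π ^ 2 / l + 4 / l * V + 2 * n * (l / |a|)

theorem E1_nonneg {a l V : ℝ} (hl : 0 < l) (hV : 0 ≤ V) (n : ℕ) : 0 ≤ E1 a l V n := by
  have := KK_one
  unfold E1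
  positivity

theorem decor {a l : ℝ} (hl' : l0 ≤ l) (hla : l ≤ |a|) {n : ℕ} (hn : 3 ≤ n)
    {g g2 : UnitAddCircle → ℝ} (hg : Continuous g) (hg2 : Continuous g2)
    (hg1 : ∀ x, |g x| ≤ 1) (hg21 : ∀ x, |g2 x| ≤ 1)
    {H1 H1' H2 H2' : ℝ → ℝ} (d1 : ∀ x, HasDerivAt H1 (H1' x) x) (c1 : Continuous H1')
    (p1 : Periodic H1 1) (p1' : Periodic H1' 1) (b1 : ∀ x, |H1 x| ≤ 1)
    (d2 : ∀ x, HasDerivAt H2 (H2' x) x) (c2 : Continuous H2')
    (p2 : Periodic H2 1) (p2' : Periodic H2' 1) (b2 : ∀ x, |H2 x| ≤ 1) {V : ℝ}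
    (v1 : ∫ x in (0:ℝ)..1, |H1' x| ≤ V) (v2 : ∫ x in (0:ℝ)..1, |H2' x| ≤ V) :
    |(∫ p : T2, (g (((S a)^[n] p).1) * p1.lift (((S a)^[n] p).2)) * (g2 p.1 * p2.lift p.2)) -
      (∫ p : T2, g p.1 * p1.lift p.2) * ∫ p : T2, g2 p.1 * p2.lift p.2| ≤
      2 * E1 a l (2 * V) n := by
  have hl : 16 ≤ l := l0_ge.trans hl'
  have hl0 : 0 < l := by linarith
  have ha : 0 < |a| := by linarith
  have hK := KK_one
  obtain ⟨m, rfl⟩ : ∃ m, n = m + 1 + 1 := ⟨n - 2, by omega⟩
  have hm : 1 ≤ m := by omega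
  have hH1c : Continuous H1 := continuous_iff_continuousAt.2 fun t => (d1 t).continuousAt
  have hH2c : Continuous H2 := continuous_iff_continuousAt.2 fun t => (d2 t).continuousAt
  have hl1 := lift_cont p1 hH1c
  have hl2 := lift_cont p2 hH2c
  have hV0 : 0 ≤ V := le_trans
    (intervalIntegral.integral_nonneg zero_le_one fun t _ => abs_nonneg _) v1
  -- the first application
  have k1 := corr hl' hla (m := m + 1) (by omega) hg hg2 hg1 hg21 d1 c1 p1 p1' b1 d2 c2 p2 p2' b2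
  -- the second application
  have hb1 : ∀ x : UnitAddCircle, |p1.lift x| ≤ 1 := by
    intro x
    induction x using QuotientAddGroup.induction_on with
    | H x =>
      have : p1.lift ((x : ℝ) : UnitAddCircle) = H1 x := p1.lift_coe x
      rw [this]
      exact b1 x
  have po : Periodic (fun _ : ℝ => (1:ℝ)) 1 := fun _ => rfl
  have po' : Periodic (fun _ : ℝ => (0:ℝ)) 1 := fun _ => rfl
  have k2 := corr hl' hla (m := m) hm hl1 hg2 hb1 hg21 (H1 := fun _ => (1:ℝ))
    (H1' := fun _ => (0:ℝ)) (fun x => hasDerivAt_const x 1) continuous_const po po'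
    (fun x => by simp) d2 c2 p2 p2' b2
  have hlo : ∀ x : UnitAddCircle, po.lift x = 1 := by
    intro x
    induction x using QuotientAddGroup.induction_on with
    | H x => exact po.lift_coe x
  have e1 : 208 * KK * π ^ 2 / l + 4 / l * ((∫ x in (0:ℝ)..1, |H1' x|) +
      ∫ x in (0:ℝ)..1, |H2' x|) + 2 * ((m + 1 : ℕ) : ℝ) * (l / |a|) ≤
      E1 a l (2 * V) (m + 1 + 1) := by
    unfold E1
    have q1 : 4 / l * ((∫ x in (0:ℝ)..1, |H1' x|) + ∫ x in (0:ℝ)..1, |H2' x|) ≤
        4 / l * (2 * V) := mul_le_mul_of_nonneg_left (by linarith) (by positivity)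
    have q2 : 2 * ((m + 1 : ℕ) : ℝ) * (l / |a|) ≤ 2 * ((m + 1 + 1 : ℕ) : ℝ) * (l / |a|) := by
      apply mul_le_mul_of_nonneg_right _ (by positivity)
      push_cast
      linarith
    linarith
  have e2 : 208 * KK * π ^ 2 / l + 4 / l * ((∫ x in (0:ℝ)..1, |(0:ℝ)|) +
      ∫ x in (0:ℝ)..1, |H2' x|) + 2 * (m : ℝ) * (l / |a|) ≤ E1 a l (2 * V) (m + 1 + 1) := by
    unfold E1
    have q1 : 4 / l * ((∫ x in (0:ℝ)..1, |(0:ℝ)|) + ∫ x in (0:ℝ)..1, |H2' x|) ≤
        4 / l * (2 * V) := by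
      apply mul_le_mul_of_nonneg_left _ (by positivity)
      simp only [abs_zero, intervalIntegral.integral_zero]
      linarith
    have q2 : 2 * (m : ℝ) * (l / |a|) ≤ 2 * ((m + 1 + 1 : ℕ) : ℝ) * (l / |a|) := by
      apply mul_le_mul_of_nonneg_right _ (by positivity)
      push_cast
      linarith
    linarith
  have k1' := k1.trans e1
  have k2' := k2.trans e2
  set gb : ℝ := ∫ x, g x with hgb
  set hb : ℝ := ∫ x, p1.lift x with hhb
  have hgb1 : |gb| ≤ 1 := by
    have := norm_integral_le_of_norm_le_const (μ := (volume : Measure UnitAddCircle)) (f := g)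
      (C := 1) (Filter.Eventually.of_forall fun x => by rw [norm_eq_abs]; exact hg1 x)
    simpa using this
  -- rewriting
  have hit := (S_cont a).iterate (m + 1 + 1)
  have hit' := (S_cont a).iterate (m + 1)
  have cF2 : Continuous (fun p : T2 => g2 p.1 * p2.lift p.2) :=
    (hg2.comp continuous_fst).mul (hl2.comp continuous_snd)
  have cg : Continuous (fun p : T2 => g (((S a)^[m + 1 + 1] p).1)) :=
    hg.comp (continuous_fst.comp hit)
  have ch : Continuous (fun p : T2 => p1.lift (((S a)^[m + 1 + 1] p).2)) :=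
    hl1.comp (continuous_snd.comp hit)
  have ch' : Continuous (fun p : T2 => p1.lift (((S a)^[m + 1] p).1)) :=
    hl1.comp (continuous_fst.comp hit')
  have hshift : ∀ p : T2, ((S a)^[m + 1 + 1] p).2 = ((S a)^[m + 1] p).1 := by
    intro p
    rw [iterate_succ_apply']
    rfl
  have A1 : Continuous (fun p : T2 => (g (((S a)^[m + 1 + 1] p).1) *
        p1.lift (((S a)^[m + 1 + 1] p).2)) * (g2 p.1 * p2.lift p.2)) := (cg.mul ch).mul cF2
  have A2 : Continuous (fun p : T2 => p1.lift (((S a)^[m + 1] p).1) *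
        (g2 p.1 * p2.lift p.2)) := ch'.mul cF2
  have A3 : Continuous (fun p : T2 => gb * (p1.lift (((S a)^[m + 1] p).1) *
        (g2 p.1 * p2.lift p.2))) := continuous_const.mul A2
  have A4 : Continuous (fun p : T2 => hb * (g2 p.1 * p2.lift p.2)) := continuous_const.mul cF2
  have r1 : (∫ p : T2, (g (((S a)^[m + 1 + 1] p).1) - gb) * p1.lift (((S a)^[m + 1 + 1] p).2) *
      (g2 p.1 * p2.lift p.2)) = (∫ p : T2, (g (((S a)^[m + 1 + 1] p).1) *
        p1.lift (((S a)^[m + 1 + 1] p).2)) * (g2 p.1 * p2.lift p.2)) -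
      gb * ∫ p : T2, p1.lift (((S a)^[m + 1] p).1) * (g2 p.1 * p2.lift p.2) := by
    rw [← integral_const_mul, ← integral_sub (integrable_cont A1) (integrable_cont A3)]
    congr 1
    ext p
    rw [hshift]
    ring
  have r2 : (∫ p : T2, (p1.lift (((S a)^[m + 1] p).1) - hb) *
      po.lift (((S a)^[m + 1] p).2) * (g2 p.1 * p2.lift p.2)) =
      (∫ p : T2, p1.lift (((S a)^[m + 1] p).1) * (g2 p.1 * p2.lift p.2)) -
      hb * ∫ p : T2, g2 p.1 * p2.lift p.2 := by
    rw [← integral_const_mul, ← integral_sub (integrable_cont A2) (integrable_cont A4)]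
    congr 1
    ext p
    rw [hlo]
    ring
  have r3 : (∫ p : T2, g p.1 * p1.lift p.2) = gb * hb := by
    rw [hgb, hhb]
    exact integral_prod_mul g p1.lift
  rw [r1] at k1'
  rw [r2] at k2'
  rw [r3]
  set I1 := ∫ p : T2, (g (((S a)^[m + 1 + 1] p).1) *
        p1.lift (((S a)^[m + 1 + 1] p).2)) * (g2 p.1 * p2.lift p.2) with hI1
  set I2 := ∫ p : T2, p1.lift (((S a)^[m + 1] p).1) * (g2 p.1 * p2.lift p.2) with hI2
  set I3 := ∫ p : T2, g2 p.1 * p2.lift p.2 with hI3
  have hE := E1_nonneg (a := a) hl0 (by linarith : 0 ≤ 2 * V) (m + 1 + 1)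
  have e3 : I1 - gb * hb * I3 = (I1 - gb * I2) + gb * (I2 - hb * I3) := by ring
  rw [e3]
  refine (abs_add_le _ _).trans ?_
  rw [abs_mul]
  have e4 : |gb| * |I2 - hb * I3| ≤ 1 * E1 a l (2 * V) (m + 1 + 1) :=
    mul_le_mul hgb1 k2' (abs_nonneg _) zero_le_one
  linarith

end Pool.Agent.Y779.SM
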