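import Pool.Agent.Y779.SM.Arc

set_option autoImplicit false

/-!
# Decay of correlations for rectangles
-/

namespace Pool.Agent.Y779.SM

open Real MeasureTheory Function Filter Topology Pool.Agent.TH705.SM

theorem intb {F : T2 → ℝ} (hm : Measurable F) {C : ℝ} (hb : ∀ p, |F p| ≤ C) : Integrable F := by
  refine Integrable.mono' (integrable_const C) hm.aestronglyMeasurable
    (Filter.Eventually.of_forall fun p => ?_)
  rw [norm_eq_abs]
  exact hb p

/-- the smooth approximation of an arc, on the circle -/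
noncomputable def hk (c κ : ℝ) (k : ℕ) : UnitAddCircle → ℝ := (Hk_per c κ k).lift

theorem hk_coe (c κ : ℝ) (k : ℕ) (t : ℝ) : hk c κ k (t : UnitAddCircle) = Hk c κ k t :=
  (Hk_per c κ k).lift_coe t

theorem hk_cont (c κ : ℝ) (k : ℕ) : Continuous (hk c κ k) := lift_cont _ (Hk_cont c κ k)

theorem hk_abs (c κ : ℝ) (k : ℕ) (x : UnitAddCircle) : |hk c κ k x| ≤ 1 := by
  induction x using QuotientAddGroup.induction_on with
  | H x =>
    have := hk_coe c κ k x
    rw [show ((x : ℝ) : ℝ ⧸ AddSubgroup.zmultiples (1:ℝ)) = (x : UnitAddCircle) from rfl, this]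
    exact Hk_abs c κ k x

/-- indicator of a set of the circle -/
noncomputable def ind (J : Set UnitAddCircle) : UnitAddCircle → ℝ := J.indicator fun _ => 1

theorem ind_abs (J : Set UnitAddCircle) (x : UnitAddCircle) : |ind J x| ≤ 1 := by
  unfold ind
  by_cases h : x ∈ J
  · rw [Set.indicator_of_mem h, abs_one]
  · rw [Set.indicator_of_notMem h, abs_zero]
    exact zero_le_one

theorem ind_meas {J : Set UnitAddCircle} (hJ : MeasurableSet J) : Measurable (ind J) :=
  measurable_const.indicator hJ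

theorem hk_lim {c r κ : ℝ} (hκ : ∀ t : ℝ,
    (t : UnitAddCircle) ∈ Metric.ball (c : UnitAddCircle) r ↔ κ < cos (2 * π * (t - c)))
    (x : UnitAddCircle) :
    Tendsto (fun k : ℕ => hk c κ k x) atTop (𝓝 (ind (Metric.ball (c : UnitAddCircle) r) x)) := by
  induction x using QuotientAddGroup.induction_on with
  | H t =>
    have h1 : ∀ k, hk c κ k ((t : ℝ) : UnitAddCircle) = Hk c κ k t := fun k => hk_coe c κ k t
    have h2 := Hk_lim c κ t
    simp only [← h1] at h2
    have h3 : ind (Metric.ball (c : UnitAddCircle) r) (t : UnitAddCircle) =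
        if κ < cos (2 * π * (t - c)) then 1 else 0 := by
      unfold ind
      by_cases h : (t : UnitAddCircle) ∈ Metric.ball (c : UnitAddCircle) r
      · rw [Set.indicator_of_mem h, if_pos ((hκ t).1 h)]
      · rw [Set.indicator_of_notMem h, if_neg fun h' => h ((hκ t).2 h')]
    show Tendsto (fun k : ℕ => hk c κ k (t : UnitAddCircle)) atTop
      (𝓝 (ind (Metric.ball (c : UnitAddCircle) r) (t : UnitAddCircle)))
    rw [h3]
    exact h2

/-- the correlation of two product observables -/
noncomputable def cc (a : ℝ) (n : ℕ) (u χ u2 χ2 : UnitAddCircle → ℝ) : ℝ :=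
  ∫ p : T2, (u (((S a)^[n] p).1) * χ (((S a)^[n] p).2)) * (u2 p.1 * χ2 p.2)

/-- the mean of a product observable -/
noncomputable def mm (u χ : UnitAddCircle → ℝ) : ℝ := ∫ p : T2, u p.1 * χ p.2

theorem it_meas (a : ℝ) (n : ℕ) : Measurable ((S a)^[n]) := ((S_cont a).iterate n).measurable

theorem cc_meas (a : ℝ) (n : ℕ) {u χ u2 χ2 : UnitAddCircle → ℝ} (hu : Measurable u)
    (hχ : Measurable χ) (hu2 : Measurable u2) (hχ2 : Measurable χ2) :
    Measurable (fun p : T2 => (u (((S a)^[n] p).1) * χ (((S a)^[n] p).2)) *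
      (u2 p.1 * χ2 p.2)) :=
  ((hu.comp (measurable_fst.comp (it_meas a n))).mul
    (hχ.comp (measurable_snd.comp (it_meas a n)))).mul
    ((hu2.comp measurable_fst).mul (hχ2.comp measurable_snd))

theorem mul4 {x y z w : ℝ} (hx : |x| ≤ 1) (hy : |y| ≤ 1) (hz : |z| ≤ 1) (hw : |w| ≤ 1) :
    |(x * y) * (z * w)| ≤ 1 := by
  rw [abs_mul, abs_mul, abs_mul]
  exact mul_le_one₀ (mul_le_one₀ hx (abs_nonneg _) hy) (by positivity)
    (mul_le_one₀ hz (abs_nonneg _) hw)

theorem mul2 {x y : ℝ} (hx : |x| ≤ 1) (hy : |y| ≤ 1) : |x * y| ≤ 1 := by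
  rw [abs_mul]
  exact mul_le_one₀ hx (abs_nonneg _) hy

/-- stage 1: arcs in the second coordinate -/
theorem decor1 {a l : ℝ} (hl' : l0 ≤ l) (hla : l ≤ |a|) {n : ℕ} (hn : 3 ≤ n)
    {g g2 : UnitAddCircle → ℝ} (hg : Continuous g) (hg2 : Continuous g2)
    (hg1 : ∀ x, |g x| ≤ 1) (hg21 : ∀ x, |g2 x| ≤ 1) (c r c2 r2 : ℝ) :
    |cc a n g (ind (Metric.ball (c : UnitAddCircle) r)) g2
        (ind (Metric.ball (c2 : UnitAddCircle) r2)) -
      mm g (ind (Metric.ball (c : UnitAddCircle) r)) *
        mm g2 (ind (Metric.ball (c2 : UnitAddCircle) r2))| ≤ 2 * E1 a l 4 n := by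
  obtain ⟨κ, hκ⟩ := ball_iff c r
  obtain ⟨κ2, hκ2⟩ := ball_iff c2 r2
  have hk : ∀ k : ℕ, |cc a n g (hk c κ k) g2 (hk c2 κ2 k) - mm g (hk c κ k) *
      mm g2 (hk c2 κ2 k)| ≤ 2 * E1 a l 4 n := by
    intro k
    have h := decor hl' hla hn hg hg2 hg1 hg21 (Hk_hasDeriv c κ k) (Hk'_cont c κ k)
      (Hk_per c κ k) (Hk'_per c κ k) (Hk_abs c κ k) (Hk_hasDeriv c2 κ2 k) (Hk'_cont c2 κ2 k)
      (Hk_per c2 κ2 k) (Hk'_per c2 κ2 k) (Hk_abs c2 κ2 k) (Hk'_int c κ k) (Hk'_int c2 κ2 k)
    have e : (2:ℝ) * 2 = 4 := by norm_num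
    rw [e] at h
    exact h
  have hit := it_meas a n
  have t1 : Tendsto (fun k => cc a n g (Y779.SM.hk c κ k) g2 (Y779.SM.hk c2 κ2 k)) atTop
      (𝓝 (cc a n g (ind (Metric.ball (c : UnitAddCircle) r)) g2
        (ind (Metric.ball (c2 : UnitAddCircle) r2)))) := by
    unfold cc
    refine tendsto_integral_of_dominated_convergence (fun _ => (1:ℝ)) ?_ (integrable_const _) ?_ ?_
    · intro k
      exact (cc_meas a n hg.measurable (hk_cont c κ k).measurable hg2.measurable
        (hk_cont c2 κ2 k).measurable).aestronglyMeasurable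
    · intro k
      refine Filter.Eventually.of_forall fun p => ?_
      rw [norm_eq_abs]
      exact mul4 (hg1 _) (hk_abs _ _ _ _) (hg21 _) (hk_abs _ _ _ _)
    · refine Filter.Eventually.of_forall fun p => ?_
      exact ((tendsto_const_nhds.mul (hk_lim hκ _))).mul (tendsto_const_nhds.mul (hk_lim hκ2 _))
  have tm : ∀ (f : UnitAddCircle → ℝ), Continuous f → (∀ x, |f x| ≤ 1) → ∀ (c r κ : ℝ),
      (∀ t : ℝ, (t : UnitAddCircle) ∈ Metric.ball (c : UnitAddCircle) r ↔
        κ < cos (2 * π * (t - c))) →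
      Tendsto (fun k => mm f (Y779.SM.hk c κ k)) atTop
        (𝓝 (mm f (ind (Metric.ball (c : UnitAddCircle) r)))) := by
    intro f hf hf1 c r κ hκ
    unfold mm
    refine tendsto_integral_of_dominated_convergence (fun _ => (1:ℝ)) ?_ (integrable_const _) ?_ ?_
    · intro k
      exact ((hf.measurable.comp measurable_fst).mul
        ((hk_cont c κ k).measurable.comp measurable_snd)).aestronglyMeasurable
    · intro k
      refine Filter.Eventually.of_forall fun p => ?_
      rw [norm_eq_abs]
      exact mul2 (hf1 _) (hk_abs _ _ _ _)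
    · refine Filter.Eventually.of_forall fun p => ?_
      exact tendsto_const_nhds.mul (hk_lim hκ _)
  have t2 := tm g hg hg1 c r κ hκ
  have t3 := tm g2 hg2 hg21 c2 r2 κ2 hκ2
  exact le_of_tendsto' ((t1.sub (t2.mul t3)).abs) hk

theorem approx {E : Set UnitAddCircle} (mE : MeasurableSet E) {δ : ℝ} (hδ : 0 < δ) :
    ∃ g : UnitAddCircle → ℝ, Continuous g ∧ (∀ x, |g x| ≤ 1) ∧ ∫ x, |ind E x - g x| ≤ δ := by
  have hi : Integrable (ind E) (volume : Measure UnitAddCircle) := (integrable_const 1).indicator mE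
  obtain ⟨g, -, hg, hc, hgi⟩ := hi.exists_hasCompactSupport_integral_sub_le hδ
  have hc2 : Continuous fun x => max 0 (min 1 (g x)) := by fun_prop
  have hb : ∀ x, |max 0 (min 1 (g x))| ≤ 1 := by
    intro x
    rw [abs_of_nonneg (le_max_left _ _)]
    exact max_le zero_le_one (min_le_left _ _)
  refine ⟨fun x => max 0 (min 1 (g x)), hc2, hb, ?_⟩
  refine le_trans (integral_mono ?_ ?_ ?_) hg
  · refine Integrable.mono' (integrable_const 2)
      (((ind_meas mE).sub hc2.measurable).abs).aestronglyMeasurable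
      (Filter.Eventually.of_forall fun x => ?_)
    rw [norm_eq_abs, abs_abs]
    have h1 := abs_sub (ind E x) (max 0 (min 1 (g x)))
    have h2 := ind_abs E x
    have h3 := hb x
    linarith
  · exact (hi.sub hgi).norm
  · intro x
    simp only [norm_eq_abs]
    unfold ind
    by_cases h : x ∈ E
    · rw [Set.indicator_of_mem h]
      rcases le_total 1 (g x) with h1 | h1
      · rw [min_eq_left h1, max_eq_right zero_le_one, sub_self, abs_zero]
        exact abs_nonneg _
      · rw [min_eq_right h1]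
        rcases le_total 0 (g x) with h2 | h2
        · rw [max_eq_right h2]
        · rw [max_eq_left h2, sub_zero, abs_one, abs_of_nonneg (by linarith)]
          linarith
    · rw [Set.indicator_of_notMem h, zero_sub, zero_sub, abs_neg, abs_neg]
      rcases le_total 0 (g x) with h2 | h2
      · rw [abs_of_nonneg (le_max_left _ _), abs_of_nonneg h2]
        exact max_le h2 (min_le_right _ _)
      · rw [max_eq_left ((min_le_right _ _).trans h2), abs_zero]
        exact abs_nonneg _

/-- integrals of functions of the first coordinate -/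
theorem int_fst {f : UnitAddCircle → ℝ} (hf : Measurable f) :
    ∫ p : T2, f p.1 = ∫ x : UnitAddCircle, f x := by
  have h7 : MeasurePreserving (Prod.fst : T2 → UnitAddCircle)
      ((volume : Measure UnitAddCircle).prod volume) volume := measurePreserving_fst
  calc ∫ p : T2, f p.1 = ∫ x, f x ∂(Measure.map (Prod.fst : T2 → UnitAddCircle)
        ((volume : Measure UnitAddCircle).prod volume)) := by
        rw [integral_map h7.measurable.aemeasurable hf.aestronglyMeasurable]
        rfl
    _ = _ := by rw [h7.map_eq]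

theorem int_it (a : ℝ) (n : ℕ) {F : T2 → ℝ} (hF : Measurable F) :
    ∫ p : T2, F ((S a)^[n] p) = ∫ p : T2, F p := by
  have h := integral_map (μ := (volume : Measure T2)) (it_meas a n).aemeasurable
    (f := F) hF.aestronglyMeasurable
  rw [(iter_mp a n).map_eq] at h
  exact h.symm

/-- stage 2: measurable sets in the first coordinate -/
theorem decor2 {a l : ℝ} (hl' : l0 ≤ l) (hla : l ≤ |a|) {n : ℕ} (hn : 3 ≤ n)
    {E E2 : Set UnitAddCircle} (mE : MeasurableSet E) (mE2 : MeasurableSet E2) (c r c2 r2 : ℝ) :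
    |cc a n (ind E) (ind (Metric.ball (c : UnitAddCircle) r)) (ind E2)
        (ind (Metric.ball (c2 : UnitAddCircle) r2)) -
      mm (ind E) (ind (Metric.ball (c : UnitAddCircle) r)) *
        mm (ind E2) (ind (Metric.ball (c2 : UnitAddCircle) r2))| ≤ 2 * E1 a l 4 n := by
  refine le_of_forall_pos_le_add fun δ hδ => ?_
  obtain ⟨g, hg, hg1, hgd⟩ := approx mE (by positivity : 0 < δ / 4)
  obtain ⟨g2, hg2, hg21, hg2d⟩ := approx mE2 (by positivity : 0 < δ / 4)
  have h := decor1 hl' hla hn hg hg2 hg1 hg21 c r c2 r2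
  set χ := ind (Metric.ball (c : UnitAddCircle) r) with hχ
  set χ2 := ind (Metric.ball (c2 : UnitAddCircle) r2) with hχ2
  have mχ : Measurable χ := ind_meas measurableSet_ball
  have mχ2 : Measurable χ2 := ind_meas measurableSet_ball
  have bχ : ∀ x, |χ x| ≤ 1 := ind_abs _
  have bχ2 : ∀ x, |χ2 x| ≤ 1 := ind_abs _
  have mi := ind_meas mE
  have mi2 := ind_meas mE2
  have md : Measurable (fun x => |ind E x - g x|) := (mi.sub hg.measurable).abs
  have md2 : Measurable (fun x => |ind E2 x - g2 x|) := (mi2.sub hg2.measurable).abs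
  have hb : ∀ x, |ind E x - g x| ≤ 2 := fun x => by
    have := abs_sub (ind E x) (g x)
    have := ind_abs E x
    have := hg1 x
    linarith
  have hb2 : ∀ x, |ind E2 x - g2 x| ≤ 2 := fun x => by
    have := abs_sub (ind E2 x) (g2 x)
    have := ind_abs E2 x
    have := hg21 x
    linarith
  -- the correlations
  have s1 : |cc a n (ind E) χ (ind E2) χ2 - cc a n g χ g2 χ2| ≤ δ / 4 + δ / 4 := by
    unfold cc
    have i1 := intb (cc_meas a n mi mχ mi2 mχ2) (C := 1)
      (fun p => mul4 (ind_abs _ _) (bχ _) (ind_abs _ _) (bχ2 _))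
    have i2 := intb (cc_meas a n hg.measurable mχ hg2.measurable mχ2) (C := 1)
      (fun p => mul4 (hg1 _) (bχ _) (hg21 _) (bχ2 _))
    rw [← integral_sub i1 i2]
    have m1 : Measurable (fun p : T2 => |ind E (((S a)^[n] p).1) - g (((S a)^[n] p).1)|) :=
      md.comp (measurable_fst.comp (it_meas a n))
    have m2 : Measurable (fun p : T2 => |ind E2 p.1 - g2 p.1|) := md2.comp measurable_fst
    have i3 : Integrable (fun p : T2 => |ind E (((S a)^[n] p).1) - g (((S a)^[n] p).1)|) :=
      intb m1 (C := 2) (fun p => by rw [abs_abs]; exact hb _)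
    have i4 : Integrable (fun p : T2 => |ind E2 p.1 - g2 p.1|) :=
      intb m2 (C := 2) (fun p => by rw [abs_abs]; exact hb2 _)
    have e1 : ∫ p : T2, |ind E (((S a)^[n] p).1) - g (((S a)^[n] p).1)| ≤ δ / 4 := by
      have k1 := int_it a n (F := fun p : T2 => |ind E p.1 - g p.1|) (md.comp measurable_fst)
      have k2 := int_fst md
      rw [k1, k2]
      exact hgd
    have e2 : ∫ p : T2, |ind E2 p.1 - g2 p.1| ≤ δ / 4 := by
      have k2 := int_fst md2
      rw [k2]
      exact hg2d
    have e3 := norm_integral_le_of_norm_le (μ := (volume : Measure T2)) (i3.add i4)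
      (f := fun p : T2 => (ind E (((S a)^[n] p).1) * χ (((S a)^[n] p).2)) *
      (ind E2 p.1 * χ2 p.2) - (g (((S a)^[n] p).1) * χ (((S a)^[n] p).2)) *
      (g2 p.1 * χ2 p.2)) (Filter.Eventually.of_forall fun p => by
        rw [norm_eq_abs]
        set u := ind E (((S a)^[n] p).1)
        set v := g (((S a)^[n] p).1)
        set u2 := ind E2 p.1
        set v2 := g2 p.1
        set x := χ (((S a)^[n] p).2)
        set y := χ2 p.2
        have e : (u * x) * (u2 * y) - (v * x) * (v2 * y) =
            (u - v) * (x * (u2 * y)) + (u2 - v2) * ((v * x) * y) := by ring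
        rw [e]
        refine (abs_add_le _ _).trans (add_le_add ?_ ?_)
        · rw [abs_mul]
          exact mul_le_of_le_one_right (abs_nonneg _)
            (mul2 (bχ _) (mul2 (ind_abs _ _) (bχ2 _)))
        · rw [abs_mul]
          exact mul_le_of_le_one_right (abs_nonneg _) (mul2 (mul2 (hg1 _) (bχ _)) (bχ2 _)))
    rw [norm_eq_abs] at e3
    refine e3.trans ?_
    simp only [Pi.add_apply]
    rw [integral_add i3 i4]
    linarith
  -- the means
  have s2 : ∀ (F : Set UnitAddCircle) (f χ : UnitAddCircle → ℝ), MeasurableSet F → Measurable f →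
      Measurable χ → (∀ x, |f x| ≤ 1) → (∀ x, |χ x| ≤ 1) → ∫ x, |ind F x - f x| ≤ δ / 4 →
      |mm (ind F) χ - mm f χ| ≤ δ / 4 := by
    intro F f χ mF mf mχ hf hχ hd
    unfold mm
    have mF' := ind_meas mF
    have i1 : Integrable (fun p : T2 => ind F p.1 * χ p.2) :=
      intb ((mF'.comp measurable_fst).mul (mχ.comp measurable_snd)) (C := 1)
        (fun p => mul2 (ind_abs _ _) (hχ _))
    have i2 : Integrable (fun p : T2 => f p.1 * χ p.2) :=
      intb ((mf.comp measurable_fst).mul (mχ.comp measurable_snd)) (C := 1)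
        (fun p => mul2 (hf _) (hχ _))
    rw [← integral_sub i1 i2]
    have md : Measurable (fun x => |ind F x - f x|) := (mF'.sub mf).abs
    have i3 : Integrable (fun p : T2 => |ind F p.1 - f p.1|) :=
      intb (md.comp measurable_fst) (C := 2) (fun p => by
        rw [abs_abs]
        have := abs_sub (ind F p.1) (f p.1)
        have := ind_abs F p.1
        have := hf p.1
        linarith)
    have e3 := norm_integral_le_of_norm_le (μ := (volume : Measure T2)) i3
      (f := fun p : T2 => ind F p.1 * χ p.2 - f p.1 * χ p.2)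
      (Filter.Eventually.of_forall fun p => by
        rw [norm_eq_abs, ← sub_mul, abs_mul]
        exact mul_le_of_le_one_right (abs_nonneg _) (hχ _))
    rw [norm_eq_abs] at e3
    refine e3.trans ?_
    have k2 := int_fst md
    rw [k2]
    exact hd
  have q1 := s2 E g χ mE hg.measurable mχ hg1 bχ hgd
  have q2 := s2 E2 g2 χ2 mE2 hg2.measurable mχ2 hg21 bχ2 hg2d
  have bm : ∀ (f χ : UnitAddCircle → ℝ), (∀ x, |f x| ≤ 1) → (∀ x, |χ x| ≤ 1) → |mm f χ| ≤ 1 := by
    intro f χ hf hχ
    unfold mm
    have := norm_integral_le_of_norm_le_const (μ := (volume : Measure T2))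
      (f := fun p : T2 => f p.1 * χ p.2) (C := 1)
      (Filter.Eventually.of_forall fun p => by rw [norm_eq_abs]; exact mul2 (hf _) (hχ _))
    simpa using this
  have b1 := bm (ind E) χ (ind_abs _) bχ
  have b2 := bm g2 χ2 hg21 bχ2
  set A := cc a n (ind E) χ (ind E2) χ2
  set A' := cc a n g χ g2 χ2
  set M := mm (ind E) χ
  set M' := mm g χ
  set M2 := mm (ind E2) χ2
  set M2' := mm g2 χ2
  have e : A - M * M2 = (A' - M' * M2') + (A - A') - (M * (M2 - M2') + (M - M') * M2') := by ring
  rw [e]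
  have t1 : |M * (M2 - M2') + (M - M') * M2'| ≤ δ / 4 + δ / 4 := by
    refine (abs_add_le _ _).trans (add_le_add ?_ ?_)
    · rw [abs_mul]
      exact (mul_le_of_le_one_left (abs_nonneg _) b1).trans q2
    · rw [abs_mul]
      exact (mul_le_of_le_one_right (abs_nonneg _) b2).trans q1
  have t2 := abs_sub ((A' - M' * M2') + (A - A')) (M * (M2 - M2') + (M - M') * M2')
  have t3 := abs_add_le (A' - M' * M2') (A - A')
  linarith

end Pool.Agent.Y779.SM
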